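import Pool.Agent.helper39.CliqueGame.Static

/-!
# Breaker's strategy: assembling the pieces
-/

set_option autoImplicit false

open Finset Function

namespace Pool.Agent.CliqueGame

variable {W : Type*} [DecidableEq W] [Fintype W]

theorem not_ent_empty {k D : ℕ} (hk : 1 ≤ k) (hD : 1 ≤ D) (S : Finset W) : ¬ Ent k D ∅ S := by
  have h1 : ∀ y : W, Nb (∅ : Finset (Sym2 W)) y = ∅ := by
    intro y
    rw [eq_empty_iff_forall_notMem]
    intro x hx
    rw [mem_Nb] at hx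
    simp at hx
  have h2 : Vh (∅ : Finset (Sym2 W)) D = ∅ := by
    rw [eq_empty_iff_forall_notMem]
    intro x hx
    rw [mem_Vh, h1] at hx
    simp at hx
    omega
  unfold Ent host
  simp only [h1, h2, inter_empty, card_empty, union_empty]
  rintro (h | ⟨y, _, _, h⟩) <;> omega

theorem ent_of_clique {q k D : ℕ} (hkq : k + 1 ≤ q) (M : Finset (Sym2 W)) (S : Finset W)
    (hS : S.card = q) (hM : ∀ x ∈ S, ∀ y ∈ S, x ≠ y → s(x, y) ∈ M) : Ent k D M S := by
  classical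
  by_cases hall : S ⊆ Vh M D
  · left
    rw [inter_eq_left.2 hall, hS]
    omega
  · right
    rw [not_subset] at hall
    obtain ⟨y, hy, hyl⟩ := hall
    refine ⟨y, hy, hyl, ?_⟩
    have h1 : S.erase y ⊆ S ∩ host M D y := by
      intro x hx
      rw [mem_erase] at hx
      rw [mem_inter]
      refine ⟨hx.2, ?_⟩
      unfold host
      rw [mem_union, mem_Nb]
      exact Or.inr (hM y hy x hx.2 hx.1.symm)
    have h2 := card_le_card h1
    rw [card_erase_of_mem hy, hS] at h2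
    omega

theorem not_win_of_params (q m k D n₀ a : ℕ) (ε n₁ N₂ K a₁ a₂ L δ : ℝ)
    (hk : 1 ≤ k) (hkq : k + 2 ≤ q) (hD : 1 ≤ D) (hn₀ : 0 < n₀) (hε : 0 < ε) (hε1 : ε ≤ 1)
    (ha₁ : (((univ : Finset (Finset W)).filter (fun V => V.card ≤ q)).card : ℝ) ≤ a₁)
    (ha₂ : (((powersetCard n₀ (univ : Finset W)) ×ˢ
      (powersetCard n₀ (univ : Finset W))).card : ℝ) ≤ a₂)
    (ha₁0 : 0 < a₁) (ha₂0 : 0 < a₂)
    (hn : Real.log (16 * a₂) < ε ^ 2 * n₀ ^ 2 / 32)
    (hL1 : 1 ≤ L)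
    (hL : 4 * Fintype.card W + 2 ^ (k + 1 + 1) * Real.log (16 * a₁) ≤ L)
    (hn₁ : 8 * n₀ ≤ ε * n₁) (hN₂ : 4 * n₁ ≤ ε * N₂) (hN₂1 : 1 ≤ N₂)
    (hek : (1 + 2 * ε) ^ (k + 1) ≤ 2) (hK₁ : 2 * N₂ ≤ K) (hK₂ : ((k + 1 : ℕ) + 1 : ℝ) * n₀ ≤ K)
    (hhost : ∀ v : ℕ, v * D ≤ 2 * m → v + D ≤ 2 ^ a)
    (hδ0 : 0 ≤ δ) (hδ : (m : ℝ) * δ ≤ 1 / 4)
    (htot : 2 * ((2 * K) ^ (k + 1) * 2 ^ ((k + 1).choose 2 + (a + 1).choose 2)) * L ^ (q - k) *
      (1 + Fintype.card W * 2 ^ (k + 1)) ≤ 2 ^ (q.choose 2) * δ)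
    (hboard : 2 * m < (Fintype.card W).choose 2) :
    ¬ Win (V := W) q m ∅ ∅ := by
  apply not_win_of_potential q m (staticPot q (k + 1) n₀ ε a₁ a₂)
    (isPot_static hε.le hε1 ha₁0 ha₂0) (static_one ha₁0 ha₂0 ha₁ ha₂) (Ent k D) δ hδ0 hδ
    (not_ent_empty hk hD) (fun M S hS hM => ent_of_clique (by omega) M S hS hM) ?_ hboard
  intro M B e 𝒯 hMm he hMd hMB hP h𝒯
  obtain ⟨hed, heM, heB⟩ := mem_freeEdges.1 he
  obtain ⟨a', b', rfl⟩ : ∃ a' b', e = s(a', b') := by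
    induction e using Sym2.ind with
    | _ x y => exact ⟨x, y, rfl⟩
  have hv := vals_stVal (insert s(a', b') M) B
  have hA : PropA (stVal (insert s(a', b') M) B) q (k + 1) L :=
    propA_of_static hv hε.le hε1 (by omega) ha₁0 ha₂0 hP hL
  have hB : PropB (stVal (insert s(a', b') M) B) n₀ ε :=
    propB_of_static hv hε.le hε1 ha₁0 ha₂0 hP hn
  have hK1 : 1 ≤ 2 * K := by linarith
  have hMcard : (insert s(a', b') M).card ≤ m := by
    rw [card_insert_of_notMem heM]; exact hMm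
  have hVh := card_Vh_mul (insert s(a', b') M) D
  have hVhD : (Vh (insert s(a', b') M) D).card + D ≤ 2 ^ a := hhost _ (by omega)
  refine (entrance_bound (q := q) (k := k) (D := D) (L := L)
    (H := (2 * K) ^ (k + 1) * 2 ^ ((k + 1).choose 2 + (a + 1).choose 2)) hL1 hk hkq ?_ hA ?_ 𝒯
    h𝒯).trans htot
  · intro f hf
    rcases mem_insert.1 hf with rfl | hf
    · exact hed
    · exact hMd f hf
  · intro U hU r hr
    have hUcard : U.card ≤ 2 ^ a := by
      rcases hU with rfl | ⟨y, hy, rfl⟩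
      · omega
      · have h1 : (Nb (insert s(a', b') M) y).card < D := by
          rw [mem_Vh] at hy
          omega
        have h2 : (host (insert s(a', b') M) D y).card ≤
            (Vh (insert s(a', b') M) D).card + (Nb (insert s(a', b') M) y).card :=
          card_union_le _ _
        omega
    have hUcard' : (U.card : ℝ) ≤ 2 ^ a := by exact_mod_cast hUcard
    refine (host_bound hv hε hn₀ hB hn₁ hN₂ hN₂1 hek hK₁ hK₂ U a hUcard' r hr).trans ?_
    apply mul_le_mul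
    · exact pow_le_pow_right₀ hK1 hr
    · apply pow_le_pow_right₀ one_le_two
      have := Nat.choose_le_choose 2 hr
      omega
    · positivity
    · positivity

end Pool.Agent.CliqueGame
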