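import Pool.Agent.helper39.CliqueGame.Host3

/-!
# Entrance of a vertex set
-/

set_option autoImplicit false

open Finset Function

namespace Pool.Agent.CliqueGame

variable {W : Type*} [DecidableEq W] [Fintype W]

/-- The Maker neighbours of `y`. -/
def Nb (M : Finset (Sym2 W)) (y : W) : Finset W := univ.filter (fun x => s(y, x) ∈ M)

/-- The vertices of Maker degree at least `D`. -/
def Vh (M : Finset (Sym2 W)) (D : ℕ) : Finset W := univ.filter (fun v => D ≤ (Nb M v).card)

/-- The host of `y`. -/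
def host (M : Finset (Sym2 W)) (D : ℕ) (y : W) : Finset W := Vh M D ∪ Nb M y

/-- The entrance condition. -/
def Ent (k D : ℕ) (M : Finset (Sym2 W)) (S : Finset W) : Prop :=
  k ≤ (S ∩ Vh M D).card ∨ ∃ y ∈ S, y ∉ Vh M D ∧ k ≤ (S ∩ host M D y).card

theorem mem_Nb {M : Finset (Sym2 W)} {x y : W} : x ∈ Nb M y ↔ s(y, x) ∈ M := by simp [Nb]

theorem mem_Vh {M : Finset (Sym2 W)} {D : ℕ} {v : W} : v ∈ Vh M D ↔ D ≤ (Nb M v).card := by
  simp [Vh]

theorem sum_card_Nb (M : Finset (Sym2 W)) : ∑ v, (Nb M v).card ≤ 2 * M.card := by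
  classical
  have h1 : ∑ v, (Nb M v).card =
      ((univ : Finset (W × W)).filter (fun p => s(p.1, p.2) ∈ M)).card := by
    rw [card_filter, ← univ_product_univ, sum_product]
    apply sum_congr rfl
    intro v _
    rw [Nb, card_filter]
  have h2 : ((univ : Finset (W × W)).filter (fun p => s(p.1, p.2) ∈ M)) ⊆
      M.biUnion (fun e => univ.filter (fun p : W × W => s(p.1, p.2) = e)) := by
    intro p hp
    rw [mem_filter] at hp
    rw [mem_biUnion]
    exact ⟨_, hp.2, by simp⟩
  have h3 : ∀ e : Sym2 W, (univ.filter (fun p : W × W => s(p.1, p.2) = e)).card ≤ 2 := by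
    intro e
    induction e using Sym2.ind with
    | _ a b =>
      have : univ.filter (fun p : W × W => s(p.1, p.2) = s(a, b)) ⊆ {(a, b), (b, a)} := by
        rintro ⟨x, y⟩ hp
        simp only [mem_filter, mem_univ, true_and, Sym2.eq_iff] at hp
        simp only [mem_insert, mem_singleton, Prod.mk.injEq]
        exact hp
      exact (card_le_card this).trans (card_le_two)
  rw [h1]
  refine (card_le_card h2).trans (card_biUnion_le.trans ?_)
  calc ∑ e ∈ M, (univ.filter (fun p : W × W => s(p.1, p.2) = e)).card ≤ ∑ e ∈ M, 2 :=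
        sum_le_sum (fun e _ => h3 e)
    _ = 2 * M.card := by rw [sum_const, smul_eq_mul]; ring

theorem card_Vh_mul (M : Finset (Sym2 W)) (D : ℕ) : (Vh M D).card * D ≤ 2 * M.card := by
  calc (Vh M D).card * D = ∑ v ∈ Vh M D, D := by rw [sum_const, smul_eq_mul]
    _ ≤ ∑ v ∈ Vh M D, (Nb M v).card := sum_le_sum (fun v hv => mem_Vh.1 hv)
    _ ≤ ∑ v, (Nb M v).card := sum_le_sum_of_subset (subset_univ _)
    _ ≤ 2 * M.card := sum_card_Nb M

theorem Nb_insert_subset (M : Finset (Sym2 W)) (a b y : W) :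
    Nb (insert s(a, b) M) y ⊆ Nb M y ∪ {a, b} := by
  intro x hx
  rw [mem_Nb, mem_insert] at hx
  rw [mem_union, mem_Nb]
  rcases hx with hx | hx
  · right
    simp only [Sym2.eq_iff] at hx
    rcases hx with ⟨_, h⟩ | ⟨_, h⟩ <;> simp [h]
  · exact Or.inl hx

theorem Nb_insert_of_ne (M : Finset (Sym2 W)) (a b y : W) (ha : y ≠ a) (hb : y ≠ b) :
    Nb (insert s(a, b) M) y = Nb M y := by
  ext x
  rw [mem_Nb, mem_Nb, mem_insert]
  constructor
  · rintro (h | h)
    · simp only [Sym2.eq_iff] at h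
      rcases h with ⟨h, _⟩ | ⟨h, _⟩
      · exact absurd h ha
      · exact absurd h hb
    · exact h
  · exact Or.inr

theorem Vh_insert_subset (M : Finset (Sym2 W)) (D : ℕ) (a b : W) :
    Vh (insert s(a, b) M) D ⊆ Vh M D ∪ {a, b} := by
  intro v hv
  rw [mem_union]
  by_cases ha : v = a
  · right; simp [ha]
  · by_cases hb : v = b
    · right; simp [hb]
    · left
      rw [mem_Vh] at hv ⊢
      rwa [Nb_insert_of_ne M a b v ha hb] at hv

theorem Nb_mono {M M' : Finset (Sym2 W)} (h : M ⊆ M') (y : W) : Nb M y ⊆ Nb M' y := by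
  intro x hx
  rw [mem_Nb] at hx ⊢
  exact h hx

theorem Vh_mono {M M' : Finset (Sym2 W)} (h : M ⊆ M') (D : ℕ) : Vh M D ⊆ Vh M' D := by
  intro x hx
  rw [mem_Vh] at hx ⊢
  exact hx.trans (card_le_card (Nb_mono h x))

omit [Fintype W] in
theorem card_inter_add_two {S U U' : Finset W} {a b : W} (h : U' ⊆ U ∪ {a, b}) :
    (S ∩ U').card ≤ (S ∩ U).card + 2 := by
  calc (S ∩ U').card ≤ (S ∩ U ∪ {a, b}).card := by
        apply card_le_card
        intro x hx
        rw [mem_inter] at hx
        have := h hx.2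
        rw [mem_union] at this ⊢
        rcases this with h' | h'
        · exact Or.inl (mem_inter.2 ⟨hx.1, h'⟩)
        · exact Or.inr h'
    _ ≤ (S ∩ U).card + ({a, b} : Finset W).card := card_union_le _ _
    _ ≤ (S ∩ U).card + 2 := by
        have : ({a, b} : Finset W).card ≤ 2 := card_le_two
        omega

theorem mdeg_stVal_le (M B : Finset (Sym2 W)) (S : Finset W) (x : W) :
    mdeg (stVal M B) S x ≤ (S ∩ Nb M x).card := by
  classical
  unfold mdeg
  apply card_le_card
  intro y hy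
  rw [mem_filter] at hy
  rw [mem_inter, mem_Nb]
  refine ⟨hy.1, ?_⟩
  by_contra h
  have := hy.2
  unfold stVal at this
  rw [if_neg h] at this
  split_ifs at this <;> norm_num at this

omit [Fintype W] in
/-- Grouping by the part in the host. -/
theorem sum_group {θ : Sym2 W → ℝ} (h : Vals θ) {q κ r : ℕ} {L : ℝ} (hL : 0 ≤ L)
    (hA : PropA θ q κ L) (U Y : Finset W) (𝒯 : Finset (Finset W)) (hYU : Disjoint Y U)
    (hr : r + Y.card ≤ q)
    (h𝒯 : ∀ S ∈ 𝒯, S.card = q ∧ (S ∩ U).card = r ∧ Y ⊆ S ∧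
      ∀ x ∈ S, x ∉ U → x ∉ Y → mdeg θ S x ≤ κ) :
    ∑ S ∈ 𝒯, wt θ S ≤ ∑ R ∈ powersetCard r U, L ^ (q - (r + Y.card)) * wt θ (R ∪ Y) := by
  classical
  rw [← sum_fiberwise_of_maps_to (s := 𝒯) (t := powersetCard r U) (g := fun S => S ∩ U)
    (fun S hS => mem_powersetCard.2 ⟨inter_subset_right, (h𝒯 S hS).2.1⟩)]
  apply sum_le_sum
  intro R hR
  rw [mem_powersetCard] at hR
  have hRY : Disjoint R Y := (disjoint_of_subset_right hR.1 hYU).symm
  have hcard : (R ∪ Y).card = r + Y.card := by
    rw [card_union_of_disjoint hRY, hR.2]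
  have := sum_wt_outside h hL hA (q - (r + Y.card)) (R ∪ Y) (𝒯.filter (fun S => S ∩ U = R))
    (by omega) (by
      intro S hS
      rw [mem_filter] at hS
      obtain ⟨h1, h2, h3, h4⟩ := h𝒯 S hS.1
      refine ⟨?_, by omega, ?_⟩
      · apply union_subset _ h3
        rw [← hS.2]
        exact inter_subset_left
      · intro x hx hx'
        rw [mem_union, not_or] at hx'
        apply h4 x hx _ hx'.2
        intro hxU
        exact hx'.1 (by rw [← hS.2]; exact mem_inter.2 ⟨hx, hxU⟩))
  exact this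

/-- The entrance bound. -/
theorem entrance_bound {M B : Finset (Sym2 W)} {a b : W} {q k D : ℕ} {L H : ℝ} (hL : 1 ≤ L)
    (hk : 1 ≤ k) (hkq : k + 2 ≤ q)
    (hMd : ∀ f ∈ insert s(a, b) M, ¬ f.IsDiag)
    (hA : PropA (stVal (insert s(a, b) M) B) q (k + 1) L)
    (hH : ∀ (U : Finset W), (U = Vh (insert s(a, b) M) D ∨
        ∃ y, y ∉ Vh (insert s(a, b) M) D ∧ U = host (insert s(a, b) M) D y) →
      ∀ r ≤ k + 1, ∑ R ∈ powersetCard r U, wt (stVal (insert s(a, b) M) B) R ≤ H)
    (𝒯 : Finset (Finset W))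
    (h𝒯 : ∀ S ∈ 𝒯, S.card = q ∧ ¬ Ent k D M S ∧ Ent k D (insert s(a, b) M) S) :
    ∑ S ∈ 𝒯, wt (stVal (insert s(a, b) M) B) S ≤
      2 * H * L ^ (q - k) * (1 + Fintype.card W * 2 ^ (k + 1)) := by
  classical
  set M' := insert s(a, b) M with hM'
  set θ := stVal M' B with hθ
  have hv : Vals θ := vals_stVal M' B
  have hL0 : 0 ≤ L := by linarith
  have hH0 : 0 ≤ H := by
    have := hH (Vh M' D) (Or.inl rfl) 0 (by omega)
    simp only [powersetCard_zero, sum_singleton] at this
    exact (wt_nonneg hv ∅).trans this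
  -- low vertices of a newly entered set have small degree
  have hhost : ∀ S ∈ 𝒯, ∀ y ∈ S, y ∉ Vh M' D → (S ∩ host M' D y).card ≤ k + 1 := by
    intro S hS y hy hyl
    obtain ⟨_, h2, _⟩ := h𝒯 S hS
    unfold Ent at h2
    push Not at h2
    have h3 := h2.2 y hy (fun h' => hyl (Vh_mono (subset_insert _ _) D h'))
    have h4 : host M' D y ⊆ host M D y ∪ {a, b} := by
      unfold host
      intro x hx
      rw [mem_union] at hx
      rcases hx with hx | hx
      · have := Vh_insert_subset M D a b hx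
        rw [mem_union] at this
        rw [mem_union, mem_union]
        tauto
      · have := Nb_insert_subset M a b y hx
        rw [mem_union] at this
        rw [mem_union, mem_union]
        tauto
    have := card_inter_add_two (S := S) h4
    omega
  have hVh : ∀ S ∈ 𝒯, (S ∩ Vh M' D).card ≤ k + 1 := by
    intro S hS
    obtain ⟨_, h2, _⟩ := h𝒯 S hS
    unfold Ent at h2
    push Not at h2
    have h3 := h2.1
    have h4 : (S ∩ Vh M' D).card ≤ (S ∩ Vh M D).card + 2 :=
      card_inter_add_two (S := S) (Vh_insert_subset M D a b)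
    omega
  have hdeg : ∀ S ∈ 𝒯, ∀ x ∈ S, x ∉ Vh M' D → mdeg θ S x ≤ k + 1 := by
    intro S hS x hx hxl
    refine (mdeg_stVal_le M' B S x).trans (le_trans (card_le_card ?_) (hhost S hS x hx hxl))
    apply inter_subset_inter_left
    exact subset_union_right
  -- the two kinds
  set 𝒜 : ℕ → Finset (Finset W) := fun r => 𝒯.filter (fun S => (S ∩ Vh M' D).card = r) with h𝒜
  set ℬ : W → ℕ → Finset (Finset W) := fun y r =>
    𝒯.filter (fun S => y ∈ S ∧ y ∉ Vh M' D ∧ (S ∩ host M' D y).card = r) with hℬ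
  have hcover : 𝒯 ⊆ (𝒜 k ∪ 𝒜 (k + 1)) ∪ univ.biUnion (fun y => ℬ y k ∪ ℬ y (k + 1)) := by
    intro S hS
    obtain ⟨_, _, h3⟩ := h𝒯 S hS
    rw [mem_union]
    rcases h3 with h3 | ⟨y, hy, hyl, h3⟩
    · left
      have h4 := hVh S hS
      rw [mem_union]
      simp only [h𝒜, mem_filter]
      rcases Nat.lt_or_ge k (S ∩ Vh M' D).card with h5 | h5
      · right; exact ⟨hS, by omega⟩
      · left; exact ⟨hS, by omega⟩
    · right
      have h4 := hhost S hS y hy hyl
      rw [mem_biUnion]
      refine ⟨y, mem_univ _, ?_⟩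
      rw [mem_union]
      simp only [hℬ, mem_filter]
      rcases Nat.lt_or_ge k (S ∩ host M' D y).card with h5 | h5
      · right; exact ⟨hS, hy, hyl, by omega⟩
      · left; exact ⟨hS, hy, hyl, by omega⟩
  have hwt0 : ∀ S : Finset W, 0 ≤ wt θ S := wt_nonneg hv
  have hLmono : ∀ i, i ≤ q - k → L ^ i ≤ L ^ (q - k) := fun i hi => pow_le_pow_right₀ hL hi
  have h𝒜b : ∀ r, k ≤ r → r ≤ k + 1 → ∑ S ∈ 𝒜 r, wt θ S ≤ L ^ (q - k) * H := by
    intro r hr1 hr2
    have h1 := sum_group hv hL0 hA (Vh M' D) ∅ (𝒜 r) (disjoint_empty_left _) (r := r)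
      (by simp; omega) (by
        intro S hS
        simp only [h𝒜, mem_filter] at hS
        refine ⟨(h𝒯 S hS.1).1, hS.2, empty_subset _, ?_⟩
        intro x hx hx' _
        exact hdeg S hS.1 x hx hx')
    refine h1.trans ?_
    rw [← mul_sum]
    have h2 := hH (Vh M' D) (Or.inl rfl) r hr2
    simp only [union_empty]
    have h3 : 0 ≤ ∑ R ∈ powersetCard r (Vh M' D), wt θ R := sum_nonneg (fun R _ => hwt0 R)
    apply mul_le_mul (hLmono _ (by simp; omega)) h2 h3 (by positivity)
  have hℬb : ∀ y r, k ≤ r → r ≤ k + 1 → ∑ S ∈ ℬ y r, wt θ S ≤ L ^ (q - k) * (2 ^ (k + 1) * H) := by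
    intro y r hr1 hr2
    by_cases hyl : y ∈ Vh M' D
    · have : ℬ y r = ∅ := by
        rw [eq_empty_iff_forall_notMem]
        intro S hS
        simp only [hℬ, mem_filter] at hS
        exact hS.2.2.1 hyl
      rw [this, sum_empty]
      positivity
    · have hyhost : y ∉ host M' D y := by
        unfold host
        rw [mem_union, not_or]
        refine ⟨hyl, ?_⟩
        rw [mem_Nb]
        intro h'
        exact hMd _ h' (by simp)
      have h1 := sum_group hv hL0 hA (host M' D y) {y} (ℬ y r)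
        (by rw [disjoint_singleton_left]; exact hyhost) (r := r)
        (by simp; omega) (by
          intro S hS
          simp only [hℬ, mem_filter] at hS
          refine ⟨(h𝒯 S hS.1).1, hS.2.2.2, by simpa using hS.2.1, ?_⟩
          intro x hx hx' _
          apply hdeg S hS.1 x hx
          intro h'
          exact hx' (mem_union_left _ h'))
      refine h1.trans ?_
      rw [← mul_sum]
      have h2 := hH (host M' D y) (Or.inr ⟨y, hyl, rfl⟩) r hr2
      have h3 : ∑ R ∈ powersetCard r (host M' D y), wt θ (R ∪ {y}) ≤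
          ∑ R ∈ powersetCard r (host M' D y), 2 ^ (k + 1) * wt θ R := by
        apply sum_le_sum
        intro R hR
        rw [mem_powersetCard] at hR
        have hyR : y ∉ R := fun h' => hyhost (hR.1 h')
        rw [union_comm, ← insert_eq, wt_insert θ hyR]
        have h4 := ext_le hv R y
        rw [hR.2] at h4
        have h5 : (2 : ℝ) ^ r ≤ 2 ^ (k + 1) := pow_le_pow_right₀ one_le_two hr2
        rw [mul_comm]
        exact mul_le_mul_of_nonneg_right (h4.trans h5) (hwt0 R)
      rw [← mul_sum] at h3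
      have h6 : 0 ≤ ∑ R ∈ powersetCard r (host M' D y), wt θ (R ∪ {y}) :=
        sum_nonneg (fun R _ => hwt0 _)
      apply mul_le_mul (hLmono _ (by simp; omega)) _ h6 (by positivity)
      exact h3.trans (mul_le_mul_of_nonneg_left h2 (by positivity))
  calc ∑ S ∈ 𝒯, wt θ S
      ≤ ∑ S ∈ (𝒜 k ∪ 𝒜 (k + 1)) ∪ univ.biUnion (fun y => ℬ y k ∪ ℬ y (k + 1)), wt θ S :=
        sum_le_sum_of_subset_of_nonneg hcover (fun S _ _ => hwt0 S)
    _ ≤ (∑ S ∈ 𝒜 k, wt θ S + ∑ S ∈ 𝒜 (k + 1), wt θ S) +
        ∑ y : W, (∑ S ∈ ℬ y k, wt θ S + ∑ S ∈ ℬ y (k + 1), wt θ S) := by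
        have hun : ∀ A B : Finset (Finset W), ∑ S ∈ A ∪ B, wt θ S ≤
            ∑ S ∈ A, wt θ S + ∑ S ∈ B, wt θ S := by
          intro A B
          rw [← sum_union_inter]
          have : 0 ≤ ∑ S ∈ A ∩ B, wt θ S := sum_nonneg (fun S _ => hwt0 S)
          linarith
        have hbi : ∀ (s : Finset W) (F : W → Finset (Finset W)),
            ∑ S ∈ s.biUnion F, wt θ S ≤ ∑ y ∈ s, ∑ S ∈ F y, wt θ S := by
          intro s F
          induction s using Finset.induction_on with
          | empty => simp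
          | insert y s hy ih =>
            rw [biUnion_insert, sum_insert hy]
            exact (hun _ _).trans (add_le_add le_rfl ih)
        refine (hun _ _).trans (add_le_add (hun _ _) ?_)
        refine (hbi _ _).trans (sum_le_sum (fun y _ => hun _ _))
    _ ≤ (L ^ (q - k) * H + L ^ (q - k) * H) +
        ∑ y : W, (L ^ (q - k) * (2 ^ (k + 1) * H) + L ^ (q - k) * (2 ^ (k + 1) * H)) := by
        apply add_le_add
        · exact add_le_add (h𝒜b k le_rfl (by omega)) (h𝒜b (k + 1) (by omega) le_rfl)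
        · exact sum_le_sum (fun y _ => add_le_add (hℬb y k le_rfl (by omega))
            (hℬb y (k + 1) (by omega) le_rfl))
    _ = 2 * H * L ^ (q - k) * (1 + Fintype.card W * 2 ^ (k + 1)) := by
        rw [sum_const, card_univ, nsmul_eq_mul]
        ring

end Pool.Agent.CliqueGame
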