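import Pool.Agent.helper39.CliqueGame.Game

/-!
# Strategies and backward induction

`MakerWinsWithin q m ↔ Win q m ∅ ∅`.
-/

set_option autoImplicit false

open Finset

namespace Pool.Agent.CliqueGame

theorem makerMove_congr (σ : MakerStrategy) (b b' : ℕ → Sym2 ℕ) (i : ℕ)
    (h : ∀ j < i, b j = b' j) : makerMove σ b i = makerMove σ b' i := by
  unfold makerMove
  congr 1
  apply List.map_congr_left
  intro j hj
  exact h j (List.mem_range.1 hj)

theorem BreakerLegal_congr (σ : MakerStrategy) (b b' : ℕ → Sym2 ℕ) (i : ℕ)
    (h : ∀ j ≤ i, b j = b' j) (hb : BreakerLegal σ b i) : BreakerLegal σ b' i := by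
  obtain ⟨h1, h2, h3⟩ := hb
  refine ⟨by rwa [← h i le_rfl], ?_, ?_⟩
  · intro j hj
    rw [← h i le_rfl, ← makerMove_congr σ b b' j (fun l hl => h l (by omega))]
    exact h2 j hj
  · intro j hj
    rw [← h i le_rfl, ← h j hj.le]
    exact h3 j hj

theorem win_of_makerWinsWithin {q m : ℕ} (h : MakerWinsWithin q m) :
    Win (V := ℕ) q m ∅ ∅ := by
  obtain ⟨σ, hσ⟩ := h
  have key : ∀ (n : ℕ) (b : ℕ → Sym2 ℕ) (t : ℕ), t + n = m → (∀ j < t, BreakerLegal σ b j) →
      Win q n ((range t).image (makerMove σ b)) ((range t).image b) := by
    intro n
    induction n with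
    | zero =>
      intro b t ht hb
      have ht' : t = m := by simpa using ht
      subst ht'
      have := (hσ b).2 hb
      show HasClique q _
      refine this.mono ?_
      rintro e ⟨i, hi, rfl⟩
      simp only [coe_image, coe_range, Set.mem_image, Set.mem_Iio]
      exact ⟨i, hi, rfl⟩
    | succ n ih =>
      intro b t ht hb
      obtain ⟨h1, h2, h3⟩ := (hσ b).1 t (by omega) hb
      refine ⟨makerMove σ b t, h1, ?_, ?_, ?_⟩
      · simp only [mem_image, mem_range, not_exists, not_and]
        intro j hj hj'
        exact h2 j hj hj'.symm
      · simp only [mem_image, mem_range, not_exists, not_and]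
        intro j hj hj'
        exact h3 j hj hj'.symm
      · intro f hf1 hf2 hf3
        set b' : ℕ → Sym2 ℕ := Function.update b t f with hb'
        have hbj : ∀ j < t, b j = b' j := by
          intro j hj
          rw [hb', Function.update_of_ne (by omega)]
        have hbt : b' t = f := by rw [hb', Function.update_self]
        have hmv : ∀ j ≤ t, makerMove σ b j = makerMove σ b' j := by
          intro j hj
          exact makerMove_congr σ b b' j (fun l hl => hbj l (by omega))
        have hleg : ∀ j < t + 1, BreakerLegal σ b' j := by
          intro j hj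
          rcases Nat.lt_succ_iff_lt_or_eq.1 hj with hj | rfl
          · exact BreakerLegal_congr σ b b' j (fun l hl => hbj l (by omega)) (hb j hj)
          · refine ⟨by rwa [hbt], ?_, ?_⟩
            · intro l hl
              rw [hbt, ← hmv l hl]
              rintro rfl
              apply hf2
              rcases Nat.lt_or_eq_of_le hl with hl | rfl
              · exact mem_insert_of_mem (mem_image.2 ⟨l, mem_range.2 hl, rfl⟩)
              · exact mem_insert_self _ _
            · intro l hl
              rw [hbt, ← hbj l hl]
              rintro rfl
              exact hf3 (mem_image.2 ⟨l, mem_range.2 hl, rfl⟩)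
        have := ih b' (t + 1) (by omega) hleg
        rw [range_add_one, image_insert, image_insert, hbt, ← hmv t le_rfl] at this
        have e1 : (range t).image (makerMove σ b') = (range t).image (makerMove σ b) := by
          apply image_congr
          intro j hj
          exact (hmv j (mem_range.1 hj).le).symm
        have e2 : (range t).image b' = (range t).image b := by
          apply image_congr
          intro j hj
          exact (hbj j (mem_range.1 hj)).symm
        rwa [e1, e2] at this
  have := key m (fun _ => s(0, 0)) 0 (by omega) (by intro j hj; omega)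
  simpa using this

/-- The move of Maker found by backward induction, when after this round `n` rounds remain. -/
noncomputable def bestMove (q n : ℕ) (M B : Finset (Sym2 ℕ)) : Sym2 ℕ :=
  Classical.epsilon (fun e : Sym2 ℕ => ¬ e.IsDiag ∧ e ∉ M ∧ e ∉ B ∧
      ∀ f : Sym2 ℕ, ¬ f.IsDiag → f ∉ insert e M → f ∉ B → Win q n (insert e M) (insert f B))

/-- Maker's edges in the position reached after the Breaker moves `h` (latest first). -/
noncomputable def posM (q m : ℕ) : List (Sym2 ℕ) → Finset (Sym2 ℕ)
  | [] => ∅
  | _ :: h => insert (bestMove q (m - h.length - 1) (posM q m h) h.toFinset) (posM q m h)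

theorem makerWinsWithin_of_win {q m : ℕ} (h : Win (V := ℕ) q m ∅ ∅) : MakerWinsWithin q m := by
  set σ : MakerStrategy := fun l => bestMove q (m - l.length - 1) (posM q m l.reverse) l.toFinset
    with hσ
  refine ⟨σ, ?_⟩
  intro b
  have hpos : ∀ t, posM q m ((List.range t).map b).reverse = (range t).image (makerMove σ b) := by
    intro t
    induction t with
    | zero => simp [posM]
    | succ t ih =>
      rw [List.range_succ, List.map_append, List.map_singleton, List.reverse_append,
        List.reverse_singleton, List.singleton_append, posM, ih, range_add_one, image_insert]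
      congr 1
      show _ = σ ((List.range t).map b)
      rw [hσ]
      simp only [List.length_reverse, List.length_map, List.length_range, List.toFinset_reverse]
      rw [ih]
  have hB : ∀ t, ((List.range t).map b).toFinset = (range t).image b := by
    intro t
    ext e
    simp
  have hmove : ∀ t, makerMove σ b t =
      bestMove q (m - t - 1) ((range t).image (makerMove σ b)) ((range t).image b) := by
    intro t
    show σ ((List.range t).map b) = _
    rw [hσ]
    simp only [List.length_map, List.length_range]
    rw [hpos, hB]
  have key : ∀ t ≤ m, (∀ j < t, BreakerLegal σ b j) →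
      Win q (m - t) ((range t).image (makerMove σ b)) ((range t).image b) := by
    intro t
    induction t with
    | zero => intro _ _; simpa using h
    | succ t ih =>
      intro ht hb
      have h1 := ih (by omega) (fun j hj => hb j (by omega))
      obtain ⟨n, hn⟩ : ∃ n, m - t = n + 1 := ⟨m - t - 1, by omega⟩
      rw [hn] at h1
      have h2 := Classical.epsilon_spec h1
      rw [← bestMove, show n = m - t - 1 by omega, ← hmove] at h2
      obtain ⟨h3, h4, h5, h6⟩ := h2
      obtain ⟨hb1, hb2, hb3⟩ := hb t (by omega)
      have h7 := h6 (b t) hb1 (by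
        rw [mem_insert, not_or]
        refine ⟨hb2 t le_rfl, ?_⟩
        simp only [mem_image, mem_range, not_exists, not_and]
        intro j hj hj'
        exact hb2 j hj.le hj'.symm) (by
        simp only [mem_image, mem_range, not_exists, not_and]
        intro j hj hj'
        exact hb3 j hj hj'.symm)
      rw [range_add_one, image_insert, image_insert, show m - (t + 1) = m - t - 1 by omega]
      exact h7
  refine ⟨?_, ?_⟩
  · intro i hi hb
    have h1 := key i hi.le hb
    obtain ⟨n, hn⟩ : ∃ n, m - i = n + 1 := ⟨m - i - 1, by omega⟩
    rw [hn] at h1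
    have h2 := Classical.epsilon_spec h1
    rw [← bestMove, show n = m - i - 1 by omega, ← hmove] at h2
    obtain ⟨h3, h4, h5, _⟩ := h2
    refine ⟨h3, ?_, ?_⟩
    · intro j hj hj'
      exact h4 (mem_image.2 ⟨j, mem_range.2 hj, hj'.symm⟩)
    · intro j hj hj'
      exact h5 (mem_image.2 ⟨j, mem_range.2 hj, hj'.symm⟩)
  · intro hb
    have h1 := key m le_rfl hb
    rw [Nat.sub_self] at h1
    refine HasClique.mono h1 ?_
    intro e he
    simp only [coe_image, coe_range, Set.mem_image, Set.mem_Iio] at he
    exact he

theorem makerWinsWithin_iff {q m : ℕ} : MakerWinsWithin q m ↔ Win (V := ℕ) q m ∅ ∅ :=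
  ⟨win_of_makerWinsWithin, makerWinsWithin_of_win⟩

end Pool.Agent.CliqueGame
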