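import Mathlib

/-!
# The clique game on the infinite complete graph: definitions

Vertices are natural numbers, an edge is an unordered pair `e : Sym2 ℕ` of distinct vertices
(`¬ e.IsDiag`). Maker and Breaker alternately claim unclaimed edges, Maker first.
-/

set_option autoImplicit false

namespace Pool.Agent.CliqueGame

/-- `HasClique q M`: the set `M` of edges contains all the edges between `q` different vertices. -/
def HasClique {V : Type*} (q : ℕ) (M : Set (Sym2 V)) : Prop :=
  ∃ S : Finset V, S.card = q ∧ ∀ x ∈ S, ∀ y ∈ S, x ≠ y → s(x, y) ∈ M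

/-- A strategy of Maker: his next edge as a function of the list of the moves Breaker has made so
far (his own earlier moves are then determined). -/
abbrev MakerStrategy := List (Sym2 ℕ) → Sym2 ℕ

/-- Maker's `i`-th edge (`i = 0, 1, …`) when he follows `σ` and Breaker's moves are
`b 0, b 1, …`. -/
def makerMove (σ : MakerStrategy) (b : ℕ → Sym2 ℕ) (i : ℕ) : Sym2 ℕ :=
  σ ((List.range i).map b)

/-- Maker's `i`-th move is legal: it is an edge that nobody has claimed before. -/
def MakerLegal (σ : MakerStrategy) (b : ℕ → Sym2 ℕ) (i : ℕ) : Prop :=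
  ¬ (makerMove σ b i).IsDiag ∧ (∀ j < i, makerMove σ b i ≠ makerMove σ b j) ∧
    ∀ j < i, makerMove σ b i ≠ b j

/-- Breaker's `i`-th move (his reply to Maker's `i`-th move) is legal: it is an edge that nobody has
claimed before. -/
def BreakerLegal (σ : MakerStrategy) (b : ℕ → Sym2 ℕ) (i : ℕ) : Prop :=
  ¬ (b i).IsDiag ∧ (∀ j ≤ i, b i ≠ makerMove σ b j) ∧ ∀ j < i, b i ≠ b j

/-- Maker has a strategy that, however Breaker plays, always makes legal moves and produces a copy of
`K_q` within Maker's first `m` moves. -/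
def MakerWinsWithin (q m : ℕ) : Prop :=
  ∃ σ : MakerStrategy, ∀ b : ℕ → Sym2 ℕ,
    (∀ i < m, (∀ j < i, BreakerLegal σ b j) → MakerLegal σ b i) ∧
    ((∀ j < m, BreakerLegal σ b j) → HasClique q {e | ∃ i < m, makerMove σ b i = e})

/-- The move number of the `K_q`-game: the least `m` such that Maker can produce a `K_q` within his
first `m` moves. -/
noncomputable def moveNumber (q : ℕ) : ℕ := sInf {m | MakerWinsWithin q m}

/-! ### Backward induction -/

/-- `Win q n M B`: in the position where Maker owns `M`, Breaker owns `B` and Maker is to move, Maker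
can ensure that after `n` more rounds he owns a `K_q`. -/
def Win {V : Type*} [DecidableEq V] (q : ℕ) : ℕ → Finset (Sym2 V) → Finset (Sym2 V) → Prop
  | 0, M, _ => HasClique q (M : Set (Sym2 V))
  | n + 1, M, B => ∃ e : Sym2 V, ¬ e.IsDiag ∧ e ∉ M ∧ e ∉ B ∧
      ∀ f : Sym2 V, ¬ f.IsDiag → f ∉ insert e M → f ∉ B → Win q n (insert e M) (insert f B)

theorem HasClique.mono {V : Type*} {q : ℕ} {M M' : Set (Sym2 V)} (h : HasClique q M) (hM : M ⊆ M') :
    HasClique q M' := by
  obtain ⟨S, hS, hS'⟩ := h
  exact ⟨S, hS, fun x hx y hy hxy => hM (hS' x hx y hy hxy)⟩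

end Pool.Agent.CliqueGame
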