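import Pool.Agent.helper39.CliqueGame.Weights

/-!
# The weight of the subsets of a small host set
-/

set_option autoImplicit false

open Finset Function

namespace Pool.Agent.CliqueGame

variable {W : Type*} [DecidableEq W]

/-- The second pseudo-randomness property: for every set `C` of `n₀` vertices, fewer than `n₀`
vertices outside `C` have a row sum `≥ (1 + ε/2) n₀` towards `C`. -/
def PropB (θ : Sym2 W → ℝ) (n₀ : ℕ) (ε : ℝ) : Prop :=
  ∀ (C X : Finset W), C.card = n₀ →
    (∀ x ∈ X, x ∉ C ∧ (1 + ε / 2) * n₀ ≤ ∑ c ∈ C, θ s(x, c)) → X.card < n₀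

/-- Only few vertices are atypical for a large set `A`. -/
theorem card_bad_lt {θ : Sym2 W → ℝ} (h : Vals θ) {n₀ : ℕ} {ε : ℝ} (hε : 0 < ε)
    (hn₀ : 0 < n₀) (hB : PropB θ n₀ ε) (A : Finset W) (hA : 8 * n₀ ≤ ε * A.card)
    (X : Finset W) (hX : ∀ c ∈ X, (1 + ε) * A.card < ∑ x ∈ A.erase c, θ s(x, c)) :
    X.card < n₀ := by
  classical
  by_contra hcon
  push Not at hcon
  obtain ⟨C, hCX, hC⟩ := exists_subset_card_eq hcon
  set Y : Finset W := A.filter (fun x => x ∉ C ∧ (1 + ε / 2) * n₀ ≤ ∑ c ∈ C, θ s(x, c)) with hY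
  have hYcard : Y.card < n₀ := hB C Y hC (fun x hx => by
    simp only [hY, mem_filter] at hx
    exact hx.2)
  have hrow : ∀ (x : W) (D : Finset W), ∑ c ∈ D, θ s(x, c) ≤ 2 * D.card := by
    intro x D
    calc ∑ c ∈ D, θ s(x, c) ≤ ∑ c ∈ D, (2 : ℝ) := sum_le_sum (fun c _ => h.le_two _)
      _ = 2 * D.card := by rw [sum_const, nsmul_eq_mul]; ring
  have hlow : (n₀ : ℝ) * ((1 + ε) * A.card) ≤ ∑ c ∈ C, ∑ x ∈ A.erase c, θ s(x, c) := by
    calc (n₀ : ℝ) * ((1 + ε) * A.card) = ∑ c ∈ C, (1 + ε) * A.card := by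
          rw [sum_const, nsmul_eq_mul, hC]
      _ ≤ ∑ c ∈ C, ∑ x ∈ A.erase c, θ s(x, c) := sum_le_sum (fun c hc => (hX c (hCX hc)).le)
  have hup : ∑ c ∈ C, ∑ x ∈ A.erase c, θ s(x, c) ≤
      ∑ x ∈ A, (∑ c ∈ C.erase x, θ s(x, c)) := by
    have e1 : ∀ c ∈ C, ∑ x ∈ A.erase c, θ s(x, c) =
        ∑ x ∈ A, if x = c then 0 else θ s(x, c) := by
      intro c _
      rw [← sum_filter_add_sum_filter_not A (fun x => x = c)]
      rw [sum_eq_zero (s := A.filter (fun x => x = c)), zero_add]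
      · apply sum_congr
        · ext x; simp [and_comm]
        · intro x hx
          simp only [mem_filter] at hx
          rw [if_neg hx.2]
      · intro x hx
        simp only [mem_filter] at hx
        rw [if_pos hx.2]
    have e2 : ∀ x ∈ A, ∑ c ∈ C.erase x, θ s(x, c) =
        ∑ c ∈ C, if x = c then 0 else θ s(x, c) := by
      intro x _
      rw [← sum_filter_add_sum_filter_not C (fun c => x = c)]
      rw [sum_eq_zero (s := C.filter (fun c => x = c)), zero_add]
      · apply sum_congr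
        · ext c
          simp only [mem_erase, mem_filter]
          constructor
          · rintro ⟨h1, h2⟩; exact ⟨h2, fun h3 => h1 h3.symm⟩
          · rintro ⟨h1, h2⟩; exact ⟨fun h3 => h2 h3.symm, h1⟩
        · intro c hc
          simp only [mem_filter] at hc
          rw [if_neg hc.2]
      · intro c hc
        simp only [mem_filter] at hc
        rw [if_pos hc.2]
    rw [sum_congr rfl e1, sum_congr rfl e2, sum_comm]
  have hbound : ∀ x ∈ A, ∑ c ∈ C.erase x, θ s(x, c) ≤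
      (1 + ε / 2) * n₀ + ((if x ∈ C then 2 * (n₀ : ℝ) else 0) + if x ∈ Y then 2 * (n₀ : ℝ) else 0) := by
    intro x hx
    have hn₀' : (0 : ℝ) < n₀ := by exact_mod_cast hn₀
    have h0 : 0 ≤ (1 + ε / 2) * (n₀ : ℝ) := by positivity
    have h1 : ∑ c ∈ C.erase x, θ s(x, c) ≤ 2 * (n₀ : ℝ) := by
      refine (hrow x _).trans ?_
      have : (C.erase x).card ≤ n₀ := by
        rw [← hC]; exact card_le_card (erase_subset _ _)
      have : ((C.erase x).card : ℝ) ≤ n₀ := by exact_mod_cast this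
      linarith
    by_cases hxC : x ∈ C
    · rw [if_pos hxC]
      have : 0 ≤ (if x ∈ Y then 2 * (n₀ : ℝ) else 0) := by split_ifs <;> positivity
      linarith
    · by_cases hxY : x ∈ Y
      · rw [if_neg hxC, if_pos hxY]
        linarith
      · rw [if_neg hxC, if_neg hxY]
        have h2 : ¬ (1 + ε / 2) * n₀ ≤ ∑ c ∈ C, θ s(x, c) := by
          intro h3
          apply hxY
          simp only [hY, mem_filter]
          exact ⟨hx, hxC, h3⟩
        push Not at h2
        rw [erase_eq_of_notMem hxC]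
        linarith
  have hup2 : ∑ x ∈ A, (∑ c ∈ C.erase x, θ s(x, c)) ≤
      A.card * ((1 + ε / 2) * n₀) + 4 * (n₀ : ℝ) * n₀ := by
    refine (sum_le_sum hbound).trans ?_
    rw [sum_add_distrib, sum_add_distrib, sum_const, nsmul_eq_mul]
    have h3 : ∑ x ∈ A, (if x ∈ C then 2 * (n₀ : ℝ) else 0) ≤ 2 * (n₀ : ℝ) * n₀ := by
      rw [← sum_filter, sum_const, nsmul_eq_mul]
      have : (A.filter (fun x => x ∈ C)).card ≤ n₀ := by
        rw [← hC]
        apply card_le_card
        intro x hx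
        exact (mem_filter.1 hx).2
      have : ((A.filter (fun x => x ∈ C)).card : ℝ) ≤ n₀ := by exact_mod_cast this
      nlinarith [(Nat.cast_nonneg n₀ : (0 : ℝ) ≤ n₀)]
    have h4 : ∑ x ∈ A, (if x ∈ Y then 2 * (n₀ : ℝ) else 0) ≤ 2 * (n₀ : ℝ) * n₀ := by
      rw [← sum_filter, sum_const, nsmul_eq_mul]
      have : (A.filter (fun x => x ∈ Y)).card ≤ n₀ := by
        refine le_trans (card_le_card ?_) hYcard.le
        intro x hx
        exact (mem_filter.1 hx).2
      have : ((A.filter (fun x => x ∈ Y)).card : ℝ) ≤ n₀ := by exact_mod_cast this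
      nlinarith [(Nat.cast_nonneg n₀ : (0 : ℝ) ≤ n₀)]
    linarith
  have hn₀' : (0 : ℝ) < n₀ := by exact_mod_cast hn₀
  have hfin := hlow.trans (hup.trans hup2)
  -- `n₀ (1+ε) |A| ≤ |A| (1+ε/2) n₀ + 4 n₀²`, while `8 n₀ ≤ ε |A|`; strictness from `hX`
  have hstrict : (n₀ : ℝ) * ((1 + ε) * A.card) < ∑ c ∈ C, ∑ x ∈ A.erase c, θ s(x, c) := by
    have hCne : C.Nonempty := by
      rw [← card_pos, hC]; exact hn₀
    calc (n₀ : ℝ) * ((1 + ε) * A.card) = ∑ c ∈ C, (1 + ε) * A.card := by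
          rw [sum_const, nsmul_eq_mul, hC]
      _ < ∑ c ∈ C, ∑ x ∈ A.erase c, θ s(x, c) :=
          sum_lt_sum_of_nonempty hCne (fun c hc => hX c (hCX hc))
  have hfin2 := hstrict.trans_le (hup.trans hup2)
  nlinarith

end Pool.Agent.CliqueGame
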