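import Pool.Agent.helper39.CliqueGame.Host

/-!
# The weight of the subsets of a small host set, continued
-/

set_option autoImplicit false

open Finset Function

namespace Pool.Agent.CliqueGame

variable {W : Type*} [DecidableEq W]

/-- The total weight, relative to `C`, of the vertices of `U` outside `C`. -/
noncomputable def phi (θ : Sym2 W → ℝ) (U C : Finset W) : ℝ := ∑ x ∈ U \ C, ext θ C x

theorem phi_nonneg {θ : Sym2 W → ℝ} (h : Vals θ) (U C : Finset W) : 0 ≤ phi θ U C :=
  sum_nonneg (fun x _ => ext_nonneg h C x)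

theorem phi_insert (θ : Sym2 W → ℝ) (U : Finset W) {C : Finset W} {c : W} (hc : c ∉ C) :
    phi θ U (insert c C) = ∑ x ∈ (U \ C).erase c, θ s(x, c) * ext θ C x := by
  unfold phi
  have : U \ insert c C = (U \ C).erase c := by
    ext x
    simp only [mem_sdiff, mem_insert, mem_erase, not_or]
    tauto
  rw [this]
  exact sum_congr rfl (fun x _ => ext_insert θ hc x)

theorem phi_insert_le_two {θ : Sym2 W → ℝ} (h : Vals θ) (U : Finset W) {C : Finset W} {c : W}
    (hc : c ∉ C) : phi θ U (insert c C) ≤ 2 * phi θ U C := by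
  rw [phi_insert θ U hc]
  unfold phi
  rw [mul_sum]
  refine (sum_le_sum (fun x _ => mul_le_mul_of_nonneg_right (h.le_two _) (ext_nonneg h C x))).trans ?_
  apply sum_le_sum_of_subset_of_nonneg (erase_subset _ _)
  intro x _ _
  exact mul_nonneg (by norm_num) (ext_nonneg h C x)

theorem sum_two_pow_range (n : ℕ) : ∑ i ∈ range n, (2 : ℝ) ^ i ≤ 2 ^ n := by
  induction n with
  | zero => simp
  | succ n ih =>
    rw [sum_range_succ, pow_succ]
    linarith

/-- Only few vertices are atypical for a context. -/
theorem card_bad_context {θ : Sym2 W → ℝ} (h : Vals θ) {n₀ : ℕ} {ε n₁ : ℝ} (hε : 0 < ε)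
    (hn₀ : 0 < n₀) (hB : PropB θ n₀ ε) (hn₁ : 8 * n₀ ≤ ε * n₁) (U C : Finset W)
    (X : Finset W) (hX : ∀ c ∈ X, c ∉ C ∧
      (1 + ε) * phi θ U C + 2 ^ (C.card + 2) * n₁ < phi θ U (insert c C)) :
    X.card ≤ (C.card + 1) * n₀ := by
  classical
  set j := C.card with hj
  have hn₁0 : 0 ≤ n₁ := by
    have : (0 : ℝ) < n₀ := by exact_mod_cast hn₀
    by_contra hcon
    push Not at hcon
    nlinarith
  -- level sets
  set Z : Finset W := (U \ C).filter (fun x => ext θ C x ≠ 0) with hZ
  have hlev : ∀ x : W, ∃ i ≤ j, ext θ C x ≠ 0 → ext θ C x = 2 ^ i := by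
    intro x
    rcases ext_eq h C x with h0 | ⟨i, hi, h1⟩
    · exact ⟨0, by omega, fun h' => absurd h0 h'⟩
    · exact ⟨i, hi, fun _ => h1⟩
  choose lev hlev1 hlev2 using hlev
  set A : ℕ → Finset W := fun i => Z.filter (fun x => lev x = i) with hA
  have hAval : ∀ i, ∀ x ∈ A i, ext θ C x = 2 ^ i := by
    intro i x hx
    simp only [hA, hZ, mem_filter] at hx
    rw [hlev2 x hx.1.2, hx.2]
  have hphi : phi θ U C = ∑ i ∈ range (j + 1), (2 : ℝ) ^ i * (A i).card := by
    unfold phi
    have e1 : ∑ x ∈ U \ C, ext θ C x = ∑ x ∈ Z, ext θ C x := by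
      rw [hZ, sum_filter]
      apply sum_congr rfl
      intro x _
      split_ifs with h'
      · rfl
      · push Not at h'; exact h'
    rw [e1, ← sum_fiberwise_of_maps_to (s := Z) (t := range (j + 1)) (g := lev)
      (fun x _ => mem_range.2 (Nat.lt_succ_of_le (hlev1 x)))]
    apply sum_congr rfl
    intro i _
    rw [sum_congr rfl (hAval i), sum_const, nsmul_eq_mul]
    ring
  have hphi2 : ∀ c, c ∉ C → phi θ U (insert c C) =
      ∑ i ∈ range (j + 1), (2 : ℝ) ^ i * ∑ x ∈ (A i).erase c, θ s(x, c) := by
    intro c hc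
    rw [phi_insert θ U hc]
    have e1 : ∑ x ∈ (U \ C).erase c, θ s(x, c) * ext θ C x =
        ∑ x ∈ Z.erase c, θ s(x, c) * ext θ C x := by
      symm
      apply sum_subset
      · exact erase_subset_erase _ (filter_subset _ _)
      · intro x hx hx'
        have : ext θ C x = 0 := by
          by_contra h'
          apply hx'
          rw [mem_erase] at hx ⊢
          exact ⟨hx.1, by rw [hZ, mem_filter]; exact ⟨hx.2, h'⟩⟩
        rw [this, mul_zero]
    rw [e1, ← sum_fiberwise_of_maps_to (s := Z.erase c) (t := range (j + 1)) (g := lev)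
      (fun x _ => mem_range.2 (Nat.lt_succ_of_le (hlev1 x)))]
    apply sum_congr rfl
    intro i _
    have e2 : (Z.erase c).filter (fun x => lev x = i) = (A i).erase c := by
      ext x
      simp only [hA, mem_filter, mem_erase]
      tauto
    rw [e2, mul_sum]
    apply sum_congr rfl
    intro x hx
    rw [hAval i x (mem_of_mem_erase hx)]
    ring
  -- every element of `X` is bad for some large level
  set Bad : ℕ → Finset W := fun i =>
    X.filter (fun c => n₁ ≤ (A i).card ∧ (1 + ε) * (A i).card < ∑ x ∈ (A i).erase c, θ s(x, c))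
    with hBad
  have hcover : X ⊆ (range (j + 1)).biUnion Bad := by
    intro c hc
    obtain ⟨hcC, hlt⟩ := hX c hc
    by_contra hcon
    have hno : ∀ i ∈ range (j + 1), n₁ ≤ (A i).card →
        ∑ x ∈ (A i).erase c, θ s(x, c) ≤ (1 + ε) * (A i).card := by
      intro i hi hni
      by_contra h'
      push Not at h'
      apply hcon
      rw [mem_biUnion]
      exact ⟨i, hi, by simp only [hBad, mem_filter]; exact ⟨hc, hni, h'⟩⟩
    have hle : ∀ i ∈ range (j + 1), (2 : ℝ) ^ i * ∑ x ∈ (A i).erase c, θ s(x, c) ≤
        (1 + ε) * ((2 : ℝ) ^ i * (A i).card) + 2 * n₁ * 2 ^ i := by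
      intro i hi
      have hp : (0 : ℝ) < 2 ^ i := by positivity
      have hc0 : (0 : ℝ) ≤ (A i).card := Nat.cast_nonneg _
      by_cases hni : n₁ ≤ (A i).card
      · have := mul_le_mul_of_nonneg_left (hno i hi hni) hp.le
        have : 0 ≤ 2 * n₁ * 2 ^ i := by positivity
        nlinarith
      · push Not at hni
        have h1 : ∑ x ∈ (A i).erase c, θ s(x, c) ≤ 2 * (A i).card := by
          calc ∑ x ∈ (A i).erase c, θ s(x, c) ≤ ∑ x ∈ (A i).erase c, (2 : ℝ) :=
                sum_le_sum (fun x _ => h.le_two _)
            _ = ((A i).erase c).card * 2 := by rw [sum_const, nsmul_eq_mul]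
            _ ≤ (A i).card * 2 := by
                apply mul_le_mul_of_nonneg_right _ (by norm_num)
                exact_mod_cast card_le_card (erase_subset _ _)
            _ = 2 * (A i).card := by ring
        have h2 : ∑ x ∈ (A i).erase c, θ s(x, c) ≤ 2 * n₁ := by linarith
        have h3 := mul_le_mul_of_nonneg_left h2 hp.le
        have h4 : 0 ≤ (1 + ε) * ((2 : ℝ) ^ i * (A i).card) := by positivity
        nlinarith
    have hsum := sum_le_sum hle
    rw [← hphi2 c hcC, sum_add_distrib, ← mul_sum, ← mul_sum, ← hphi] at hsum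
    have h5 := sum_two_pow_range (j + 1)
    have h6 : 2 * n₁ * ∑ i ∈ range (j + 1), (2 : ℝ) ^ i ≤ 2 ^ (j + 2) * n₁ := by
      have := mul_le_mul_of_nonneg_left h5 (show 0 ≤ 2 * n₁ by linarith)
      calc 2 * n₁ * ∑ i ∈ range (j + 1), (2 : ℝ) ^ i ≤ 2 * n₁ * 2 ^ (j + 1) := this
        _ = 2 ^ (j + 2) * n₁ := by ring
    linarith
  calc X.card ≤ ((range (j + 1)).biUnion Bad).card := card_le_card hcover
    _ ≤ ∑ i ∈ range (j + 1), (Bad i).card := card_biUnion_le
    _ ≤ ∑ i ∈ range (j + 1), n₀ := by
        apply sum_le_sum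
        intro i _
        by_cases hni : n₁ ≤ (A i).card
        · apply le_of_lt
          apply card_bad_lt h hε hn₀ hB (A i)
          · exact hn₁.trans (mul_le_mul_of_nonneg_left hni hε.le)
          · intro c hc
            simp only [hBad, mem_filter] at hc
            exact hc.2.2
        · have : Bad i = ∅ := by
            rw [eq_empty_iff_forall_notMem]
            intro c hc
            simp only [hBad, mem_filter] at hc
            exact hni hc.2.1
          rw [this]
          simp
    _ = (j + 1) * n₀ := by rw [sum_const, card_range, smul_eq_mul]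

/-- Peeling off one vertex. -/
theorem sum_powersetCard_succ_le {θ : Sym2 W → ℝ} (h : Vals θ) (U C : Finset W) (n : ℕ) :
    ∑ R ∈ powersetCard (n + 1) (U \ C), wt θ (C ∪ R) ≤
      ∑ v ∈ U \ C, ∑ R ∈ powersetCard n (U \ insert v C), wt θ (insert v C ∪ R) := by
  classical
  rcases isEmpty_or_nonempty W with hW | hW
  · have h0 : U \ C = ∅ := Finset.eq_empty_of_isEmpty _
    rw [h0]
    simp [powersetCard_eq_empty.2 (show (∅ : Finset W).card < n + 1 by simp)]
  rw [sum_sigma' (U \ C) (fun v => powersetCard n (U \ insert v C))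
    (fun v R => wt θ (insert v C ∪ R))]
  have hpick : ∀ R ∈ powersetCard (n + 1) (U \ C), ∃ v, v ∈ R := by
    intro R hR
    rw [mem_powersetCard] at hR
    have : R.Nonempty := by rw [← card_pos]; omega
    exact this
  choose! pick hpick using hpick
  have hinj : Set.InjOn (fun R : Finset W => (⟨pick R, R.erase (pick R)⟩ : Σ _ : W, Finset W))
      (powersetCard (n + 1) (U \ C) : Set (Finset W)) := by
    intro R hR R' hR' heq
    simp only [Sigma.mk.injEq] at heq
    obtain ⟨h1, h2⟩ := heq
    have h2' := eq_of_heq h2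
    rw [← insert_erase (hpick R hR), ← insert_erase (hpick R' hR'), h2', h1]
  calc ∑ R ∈ powersetCard (n + 1) (U \ C), wt θ (C ∪ R)
      = ∑ p ∈ (powersetCard (n + 1) (U \ C)).image
          (fun R : Finset W => (⟨pick R, R.erase (pick R)⟩ : Σ _ : W, Finset W)),
          wt θ (insert p.1 C ∪ p.2) := by
        rw [sum_image hinj]
        apply sum_congr rfl
        intro R hR
        congr 1
        have := insert_erase (hpick R hR)
        ext x
        constructor
        · intro hx
          rw [mem_union] at hx ⊢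
          rcases hx with hx | hx
          · exact Or.inl (mem_insert_of_mem hx)
          · by_cases hxp : x = pick R
            · exact Or.inl (by rw [hxp]; exact mem_insert_self _ _)
            · exact Or.inr (mem_erase.2 ⟨hxp, hx⟩)
        · intro hx
          rw [mem_union] at hx ⊢
          rcases hx with hx | hx
          · rcases mem_insert.1 hx with rfl | hx
            · exact Or.inr (hpick R hR)
            · exact Or.inl hx
          · exact Or.inr (mem_of_mem_erase hx)
    _ ≤ _ := by
        apply sum_le_sum_of_subset_of_nonneg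
        · intro p hp
          rw [mem_image] at hp
          obtain ⟨R, hR, rfl⟩ := hp
          have hv := hpick R hR
          rw [mem_powersetCard] at hR
          simp only [mem_sigma, mem_powersetCard]
          refine ⟨hR.1 hv, ?_, ?_⟩
          · intro x hx
            rw [mem_erase] at hx
            have := hR.1 hx.2
            rw [mem_sdiff] at this ⊢
            refine ⟨this.1, ?_⟩
            rw [mem_insert, not_or]
            exact ⟨hx.1, this.2⟩
          · rw [card_erase_of_mem hv, hR.2]; rfl
        · intro p _ _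
          exact wt_nonneg h _

end Pool.Agent.CliqueGame
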