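import Pool.Agent.helper39.CliqueGame.Host2

/-!
# The host lemma
-/

set_option autoImplicit false

open Finset Function

namespace Pool.Agent.CliqueGame

variable {W : Type*} [DecidableEq W]

theorem host_bound_aux {θ : Sym2 W → ℝ} (h : Vals θ) {n₀ k : ℕ} {ε n₁ N₂ K : ℝ} (hε : 0 < ε)
    (hn₀ : 0 < n₀) (hB : PropB θ n₀ ε) (hn₁ : 8 * n₀ ≤ ε * n₁) (hN₂ : 4 * n₁ ≤ ε * N₂)
    (hN₂0 : 0 ≤ N₂) (hk : (1 + 2 * ε) ^ k ≤ 2) (hK₁ : 2 * N₂ ≤ K) (hK₂ : (k + 1 : ℝ) * n₀ ≤ K)
    (U : Finset W) :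
    ∀ (n : ℕ) (C : Finset W) (z : ℕ), C.card + n ≤ k →
      phi θ U C ≤ (1 + 2 * ε) ^ C.card * N₂ * 2 ^ (C.card + z) →
      ∑ R ∈ powersetCard n (U \ C), wt θ (C ∪ R) ≤
        wt θ C * ((2 * K) ^ n * 2 ^ (n * C.card + n.choose 2 + (z + 1).choose 2)) := by
  classical
  have hn₀' : (0 : ℝ) < n₀ := by exact_mod_cast hn₀
  have hK0 : 0 ≤ K := by linarith
  intro n
  induction n with
  | zero =>
    intro C z _ _
    have h1 : (1 : ℝ) ≤ 2 ^ ((z + 1).choose 2) := one_le_pow₀ one_le_two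
    have h2 := wt_nonneg h C
    simp only [powersetCard_zero, sum_singleton, union_empty, zero_mul, pow_zero, one_mul,
      Nat.choose_zero_succ, zero_add]
    nlinarith
  | succ n ih =>
    intro C z hCn hphi
    set j := C.card with hj
    have hwC := wt_nonneg h C
    have hpj : (1 + 2 * ε) ^ j ≤ 2 := by
      refine le_trans (pow_le_pow_right₀ (by linarith) ?_) hk
      omega
    have hpj0 : (1 : ℝ) ≤ (1 + 2 * ε) ^ j := one_le_pow₀ (by linarith)
    refine (sum_powersetCard_succ_le h U C n).trans ?_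
    -- the bound for one vertex
    have hone : ∀ v ∈ U \ C, ∀ z' : ℕ,
        phi θ U (insert v C) ≤ (1 + 2 * ε) ^ (j + 1) * N₂ * 2 ^ (j + 1 + z') →
        ∑ R ∈ powersetCard n (U \ insert v C), wt θ (insert v C ∪ R) ≤
          wt θ C * (ext θ C v * ((2 * K) ^ n *
            2 ^ (n * (j + 1) + n.choose 2 + (z' + 1).choose 2))) := by
      intro v hv z' hz'
      have hvC : v ∉ C := (mem_sdiff.1 hv).2
      have hcard : (insert v C).card = j + 1 := card_insert_of_notMem hvC
      have h1 := ih (insert v C) z' (by rw [hcard]; omega) (by rw [hcard]; exact hz')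
      rw [hcard, wt_insert θ hvC] at h1
      linarith
    have hdouble : ∀ v ∈ U \ C,
        phi θ U (insert v C) ≤ (1 + 2 * ε) ^ (j + 1) * N₂ * 2 ^ (j + 1 + z) := by
      intro v hv
      have hvC : v ∉ C := (mem_sdiff.1 hv).2
      have h1 := phi_insert_le_two h U hvC
      have h2 : (0 : ℝ) ≤ (1 + 2 * ε) ^ j * N₂ * 2 ^ (j + z) := by positivity
      have h3 : (1 + 2 * ε) ^ (j + 1) * N₂ * 2 ^ (j + 1 + z) =
          (1 + 2 * ε) * (2 * ((1 + 2 * ε) ^ j * N₂ * 2 ^ (j + z))) := by ring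
      rw [h3]
      nlinarith
    have hphiK : phi θ U C ≤ K * 2 ^ (j + z) := by
      refine hphi.trans ?_
      apply mul_le_mul_of_nonneg_right _ (by positivity)
      nlinarith
    have hexp : (n + 1) * j + (n + 1).choose 2 = j + (n * (j + 1) + n.choose 2) := by
      rw [Nat.choose_succ_succ' n 1, Nat.choose_one_right]; ring
    rcases Nat.eq_zero_or_pos z with hz | hz
    · subst hz
      -- no typical vertices needed
      calc ∑ v ∈ U \ C, ∑ R ∈ powersetCard n (U \ insert v C), wt θ (insert v C ∪ R)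
          ≤ ∑ v ∈ U \ C, wt θ C * (ext θ C v * ((2 * K) ^ n *
            2 ^ (n * (j + 1) + n.choose 2 + (0 + 1).choose 2))) :=
            sum_le_sum (fun v hv => hone v hv 0 (hdouble v hv))
        _ = wt θ C * (phi θ U C * ((2 * K) ^ n *
            2 ^ (n * (j + 1) + n.choose 2 + (0 + 1).choose 2))) := by
            rw [← mul_sum, ← sum_mul]; rfl
        _ ≤ wt θ C * ((2 * K * 2 ^ j) * ((2 * K) ^ n *
            2 ^ (n * (j + 1) + n.choose 2 + (0 + 1).choose 2))) := by
            apply mul_le_mul_of_nonneg_left _ hwC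
            apply mul_le_mul_of_nonneg_right _ (by positivity)
            refine hphiK.trans ?_
            rw [add_zero]
            have : (0 : ℝ) < 2 ^ j := by positivity
            nlinarith
        _ = _ := by
            rw [hexp]
            ring
    · obtain ⟨z₁, rfl⟩ : ∃ z₁, z = z₁ + 1 := ⟨z - 1, by omega⟩
      -- good and bad vertices
      set X : Finset W := (U \ C).filter (fun v =>
        (1 + ε) * phi θ U C + 2 ^ (C.card + 2) * n₁ < phi θ U (insert v C)) with hX
      have hXcard : X.card ≤ (j + 1) * n₀ := by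
        apply card_bad_context h hε hn₀ hB hn₁ U C X
        intro c hc
        simp only [hX, mem_filter, mem_sdiff] at hc
        exact ⟨hc.1.2, hc.2⟩
      have hXK : (X.card : ℝ) ≤ K := by
        have h1 : (X.card : ℝ) ≤ ((j + 1) * n₀ : ℕ) := by exact_mod_cast hXcard
        push_cast at h1
        have h2 : (j : ℝ) ≤ k := by exact_mod_cast (by omega : j ≤ k)
        nlinarith
      set b₁ : ℝ := (2 * K) ^ n * 2 ^ (n * (j + 1) + n.choose 2 + (z₁ + 1).choose 2) with hb₁
      set b₂ : ℝ := (2 * K) ^ n * 2 ^ (n * (j + 1) + n.choose 2 + (z₁ + 1 + 1).choose 2) with hb₂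
      have hb₁0 : 0 ≤ b₁ := by positivity
      have hb₂0 : 0 ≤ b₂ := by positivity
      have hgood : ∀ v ∈ (U \ C), v ∉ X →
          ∑ R ∈ powersetCard n (U \ insert v C), wt θ (insert v C ∪ R) ≤
            wt θ C * (ext θ C v * b₁) := by
        intro v hv hvX
        apply hone v hv z₁
        have h1 : phi θ U (insert v C) ≤ (1 + ε) * phi θ U C + 2 ^ (j + 2) * n₁ := by
          by_contra hcon
          push Not at hcon
          apply hvX
          simp only [hX, mem_filter]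
          exact ⟨hv, hcon⟩
        have h2 : (2 : ℝ) ^ (j + 2) * n₁ ≤ 2 ^ j * (ε * N₂) := by
          have : (0 : ℝ) < 2 ^ j := by positivity
          calc (2 : ℝ) ^ (j + 2) * n₁ = 2 ^ j * (4 * n₁) := by ring
            _ ≤ 2 ^ j * (ε * N₂) := mul_le_mul_of_nonneg_left hN₂ this.le
        have h3 : (2 : ℝ) ^ j * (ε * N₂) ≤
            ε * ((1 + 2 * ε) ^ j * N₂ * 2 ^ (j + (z₁ + 1))) := by
          have h4 : (2 : ℝ) ^ j ≤ 2 ^ (j + (z₁ + 1)) := pow_le_pow_right₀ one_le_two (by omega)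
          have h5 : 0 ≤ ε * N₂ := by positivity
          calc (2 : ℝ) ^ j * (ε * N₂) ≤ 2 ^ (j + (z₁ + 1)) * (ε * N₂) :=
                mul_le_mul_of_nonneg_right h4 h5
            _ = ε * (1 * N₂ * 2 ^ (j + (z₁ + 1))) := by ring
            _ ≤ ε * ((1 + 2 * ε) ^ j * N₂ * 2 ^ (j + (z₁ + 1))) := by
                apply mul_le_mul_of_nonneg_left _ hε.le
                apply mul_le_mul_of_nonneg_right _ (by positivity)
                exact mul_le_mul_of_nonneg_right hpj0 hN₂0
        have h4 := mul_le_mul_of_nonneg_left hphi (show (0 : ℝ) ≤ 1 + ε by linarith)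
        calc phi θ U (insert v C) ≤ (1 + ε) * phi θ U C + 2 ^ (j + 2) * n₁ := h1
          _ ≤ (1 + ε) * ((1 + 2 * ε) ^ j * N₂ * 2 ^ (j + (z₁ + 1))) +
              ε * ((1 + 2 * ε) ^ j * N₂ * 2 ^ (j + (z₁ + 1))) := by linarith
          _ = (1 + 2 * ε) ^ (j + 1) * N₂ * 2 ^ (j + 1 + z₁) := by ring
      have hbad : ∀ v ∈ X,
          ∑ R ∈ powersetCard n (U \ insert v C), wt θ (insert v C ∪ R) ≤
            wt θ C * (2 ^ j * b₂) := by
        intro v hv
        have hv' : v ∈ U \ C := (mem_filter.1 hv).1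
        refine (hone v hv' (z₁ + 1) (hdouble v hv')).trans ?_
        apply mul_le_mul_of_nonneg_left _ hwC
        exact mul_le_mul_of_nonneg_right (ext_le h C v) hb₂0
      have hXsub : X ⊆ U \ C := filter_subset _ _
      calc ∑ v ∈ U \ C, ∑ R ∈ powersetCard n (U \ insert v C), wt θ (insert v C ∪ R)
          = ∑ v ∈ (U \ C) \ X, ∑ R ∈ powersetCard n (U \ insert v C), wt θ (insert v C ∪ R) +
            ∑ v ∈ X, ∑ R ∈ powersetCard n (U \ insert v C), wt θ (insert v C ∪ R) :=
            (sum_sdiff hXsub).symm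
        _ ≤ ∑ v ∈ (U \ C) \ X, wt θ C * (ext θ C v * b₁) + ∑ v ∈ X, wt θ C * (2 ^ j * b₂) := by
            apply add_le_add
            · apply sum_le_sum
              intro v hv
              rw [mem_sdiff (s := U \ C)] at hv
              exact hgood v hv.1 hv.2
            · exact sum_le_sum hbad
        _ ≤ ∑ v ∈ U \ C, wt θ C * (ext θ C v * b₁) + ∑ v ∈ X, wt θ C * (2 ^ j * b₂) := by
            apply add_le_add _ le_rfl
            apply sum_le_sum_of_subset_of_nonneg sdiff_subset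
            intro v _ _
            have := ext_nonneg h C v
            positivity
        _ = wt θ C * (phi θ U C * b₁ + X.card * (2 ^ j * b₂)) := by
            rw [← mul_sum, ← sum_mul, sum_const, nsmul_eq_mul]
            unfold phi
            ring
        _ ≤ wt θ C * ((K * 2 ^ (j + (z₁ + 1))) * b₁ + K * (2 ^ j * b₂)) := by
            apply mul_le_mul_of_nonneg_left _ hwC
            apply add_le_add
            · exact mul_le_mul_of_nonneg_right hphiK hb₁0
            · exact mul_le_mul_of_nonneg_right hXK (by positivity)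
        _ = wt θ C * ((2 * K) ^ (n + 1) *
            2 ^ ((n + 1) * j + (n + 1).choose 2 + (z₁ + 1 + 1).choose 2)) := by
            have e1 : (z₁ + 1 + 1).choose 2 = (z₁ + 1) + (z₁ + 1).choose 2 := by
              rw [Nat.choose_succ_succ' (z₁ + 1) 1, Nat.choose_one_right]
            rw [hexp, hb₁, hb₂, e1]
            ring

/-- The host lemma. -/
theorem host_bound {θ : Sym2 W → ℝ} (h : Vals θ) {n₀ k : ℕ} {ε n₁ N₂ K : ℝ} (hε : 0 < ε)
    (hn₀ : 0 < n₀) (hB : PropB θ n₀ ε) (hn₁ : 8 * n₀ ≤ ε * n₁) (hN₂ : 4 * n₁ ≤ ε * N₂)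
    (hN₂0 : 1 ≤ N₂) (hk : (1 + 2 * ε) ^ k ≤ 2) (hK₁ : 2 * N₂ ≤ K) (hK₂ : (k + 1 : ℝ) * n₀ ≤ K)
    (U : Finset W) (a : ℕ) (hU : (U.card : ℝ) ≤ 2 ^ a) (n : ℕ) (hn : n ≤ k) :
    ∑ R ∈ powersetCard n U, wt θ R ≤ (2 * K) ^ n * 2 ^ (n.choose 2 + (a + 1).choose 2) := by
  have h1 := host_bound_aux h hε hn₀ hB hn₁ hN₂ (by linarith) hk hK₁ hK₂ U n ∅ a (by simpa using hn)
    (by
      unfold phi
      simp only [sdiff_empty, card_empty, pow_zero, one_mul, zero_add]
      calc ∑ x ∈ U, ext θ ∅ x = U.card := by simp [ext]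
        _ ≤ 2 ^ a := hU
        _ ≤ N₂ * 2 ^ a := by
          have : (0 : ℝ) < 2 ^ a := by positivity
          nlinarith)
  simpa [wt, pairsIn] using h1

end Pool.Agent.CliqueGame
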