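import Mathlib

/-!
# Erdős–Selfridge potentials

States are functions `θ : E → ℝ`: `θ e = 2` if Maker owns `e`, `0` if Breaker owns `e`, `1` if `e`
is free. A potential is a function of the state that behaves like a multi-affine polynomial with
nonnegative coefficients.
-/

set_option autoImplicit false

open Finset Function

namespace Pool.Agent.CliqueGame

variable {E : Type*} [DecidableEq E]

/-- Multi-affine monotone potentials. -/
structure IsPot (F : (E → ℝ) → ℝ) : Prop where
  nonneg : ∀ θ : E → ℝ, (∀ e, 0 ≤ θ e) → 0 ≤ F θ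
  affine : ∀ (θ : E → ℝ) (e : E), θ e = 1 → F (update θ e 2) + F (update θ e 0) = 2 * F θ
  mono : ∀ (θ : E → ℝ) (e : E), (∀ e, 0 ≤ θ e) → θ e = 1 → F (update θ e 0) ≤ F θ
  sub : ∀ (θ : E → ℝ) (e f : E), (∀ e, 0 ≤ θ e) → e ≠ f → θ e = 1 → θ f = 1 →
    F (update (update θ f 0) e 2) - F (update θ f 0) ≤ F (update θ e 2) - F θ

/-- `F` depends only on the coordinates in `X`. -/
def Supp (F : (E → ℝ) → ℝ) (X : Finset E) : Prop :=
  ∀ (θ : E → ℝ) (e : E) (v : ℝ), e ∉ X → F (update θ e v) = F θ

theorem Supp.mono {F : (E → ℝ) → ℝ} {X Y : Finset E} (h : Supp F X) (hXY : X ⊆ Y) : Supp F Y :=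
  fun θ e v he => h θ e v (fun h' => he (hXY h'))

theorem update_nonneg {θ : E → ℝ} (hθ : ∀ e, 0 ≤ θ e) (e : E) {v : ℝ} (hv : 0 ≤ v) :
    ∀ f, 0 ≤ update θ e v f := by
  intro f
  by_cases h : f = e
  · subst h; simpa using hv
  · rw [update_of_ne h]; exact hθ f

theorem IsPot.up {F : (E → ℝ) → ℝ} (h : IsPot F) (θ : E → ℝ) (e : E) (hθ : ∀ e, 0 ≤ θ e)
    (he : θ e = 1) : F θ ≤ F (update θ e 2) := by
  have h1 := h.affine θ e he
  have h2 := h.mono θ e hθ he
  linarith

theorem IsPot.double {F : (E → ℝ) → ℝ} (h : IsPot F) (θ : E → ℝ) (e : E) (hθ : ∀ e, 0 ≤ θ e)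
    (he : θ e = 1) : F (update θ e 2) ≤ 2 * F θ := by
  have h1 := h.affine θ e he
  have h2 := h.nonneg (update θ e 0) (update_nonneg hθ e le_rfl)
  linarith

theorem isPot_const {c : ℝ} (hc : 0 ≤ c) : IsPot (fun _ : E → ℝ => c) where
  nonneg := fun _ _ => hc
  affine := fun _ _ _ => by ring
  mono := fun _ _ _ _ => le_rfl
  sub := fun _ _ _ _ _ _ _ => by simp

theorem supp_const {c : ℝ} : Supp (fun _ : E → ℝ => c) ∅ := fun _ _ _ _ => rfl

theorem isPot_coord (e₀ : E) : IsPot (fun θ : E → ℝ => θ e₀) where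
  nonneg := fun θ hθ => hθ e₀
  affine := by
    intro θ e he
    by_cases h : e₀ = e
    · subst h; simp [he]
    · rw [update_of_ne h, update_of_ne h]; ring
  mono := by
    intro θ e hθ he
    by_cases h : e₀ = e
    · subst h; simp [he]
    · rw [update_of_ne h]
  sub := by
    intro θ e f hθ hef he hf
    by_cases h : e₀ = e
    · subst h
      rw [update_self, update_self, update_of_ne hef]
    · rw [update_of_ne h, update_of_ne h]
      simp

theorem supp_coord (e₀ : E) : Supp (fun θ : E → ℝ => θ e₀) {e₀} := by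
  intro θ e v he
  have : e₀ ≠ e := by
    intro h; exact he (by simp [h])
  simp only
  rw [update_of_ne this]

theorem IsPot.add {F G : (E → ℝ) → ℝ} (hF : IsPot F) (hG : IsPot G) :
    IsPot (fun θ => F θ + G θ) where
  nonneg := fun θ hθ => add_nonneg (hF.nonneg θ hθ) (hG.nonneg θ hθ)
  affine := fun θ e he => by
    have h1 := hF.affine θ e he
    have h2 := hG.affine θ e he
    linarith
  mono := fun θ e hθ he => add_le_add (hF.mono θ e hθ he) (hG.mono θ e hθ he)
  sub := fun θ e f hθ hef he hf => by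
    have h1 := hF.sub θ e f hθ hef he hf
    have h2 := hG.sub θ e f hθ hef he hf
    linarith

theorem IsPot.const_mul {F : (E → ℝ) → ℝ} (hF : IsPot F) {c : ℝ} (hc : 0 ≤ c) :
    IsPot (fun θ => c * F θ) where
  nonneg := fun θ hθ => mul_nonneg hc (hF.nonneg θ hθ)
  affine := fun θ e he => by
    have h1 := hF.affine θ e he
    rw [← mul_add, h1]; ring
  mono := fun θ e hθ he => mul_le_mul_of_nonneg_left (hF.mono θ e hθ he) hc
  sub := fun θ e f hθ hef he hf => by
    have h1 := hF.sub θ e f hθ hef he hf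
    rw [← mul_sub, ← mul_sub]
    exact mul_le_mul_of_nonneg_left h1 hc

theorem Supp.const_mul {F : (E → ℝ) → ℝ} {X : Finset E} (h : Supp F X) (c : ℝ) :
    Supp (fun θ => c * F θ) X := by
  intro θ e v he
  simp only
  rw [h θ e v he]

theorem Supp.const_add {F : (E → ℝ) → ℝ} {X : Finset E} (h : Supp F X) (c : ℝ) :
    Supp (fun θ => c + F θ) X := by
  intro θ e v he
  simp only
  rw [h θ e v he]

theorem isPot_sum {ι : Type*} (s : Finset ι) (F : ι → (E → ℝ) → ℝ) (h : ∀ i ∈ s, IsPot (F i)) :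
    IsPot (fun θ => ∑ i ∈ s, F i θ) := by
  classical
  induction s using Finset.induction_on with
  | empty => simpa using isPot_const (E := E) le_rfl
  | insert a s ha ih =>
    have h1 := h a (mem_insert_self _ _)
    have h2 := ih (fun i hi => h i (mem_insert_of_mem hi))
    have h3 := h1.add h2
    simpa [sum_insert ha] using h3

theorem IsPot.mul {F G : (E → ℝ) → ℝ} {X Y : Finset E} (hF : IsPot F) (hG : IsPot G)
    (hX : Supp F X) (hY : Supp G Y) (hXY : Disjoint X Y) : IsPot (fun θ => F θ * G θ) := by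
  have hor : ∀ e, e ∉ X ∨ e ∉ Y := by
    intro e
    by_contra h
    push Not at h
    exact (Finset.disjoint_left.1 hXY h.1) h.2
  refine ⟨?_, ?_, ?_, ?_⟩
  · intro θ hθ
    exact mul_nonneg (hF.nonneg θ hθ) (hG.nonneg θ hθ)
  · intro θ e he
    rcases hor e with h | h
    · rw [hX θ e 2 h, hX θ e 0 h, ← mul_add, hG.affine θ e he]; ring
    · rw [hY θ e 2 h, hY θ e 0 h, ← add_mul, hF.affine θ e he]; ring
  · intro θ e hθ he
    rcases hor e with h | h
    · rw [hX θ e 0 h]
      exact mul_le_mul_of_nonneg_left (hG.mono θ e hθ he) (hF.nonneg θ hθ)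
    · rw [hY θ e 0 h]
      exact mul_le_mul_of_nonneg_right (hF.mono θ e hθ he) (hG.nonneg θ hθ)
  · intro θ e f hθ hef he hf
    rcases hor e with h | h
    · -- `e ∉ X`: `F` unaffected by `e`
      rw [hX _ e 2 h, hX _ e 2 h, ← mul_sub, ← mul_sub]
      have hG0 : 0 ≤ G (update θ e 2) - G θ := by
        have := hG.up θ e hθ he
        linarith
      rcases hor f with h' | h'
      · rw [hX θ f 0 h']
        exact mul_le_mul_of_nonneg_left (hG.sub θ e f hθ hef he hf) (hF.nonneg θ hθ)
      · have e1 : G (update (update θ f 0) e 2) = G (update θ e 2) := by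
          rw [update_comm hef.symm]
          exact hY _ f 0 h'
        rw [e1, hY θ f 0 h']
        exact mul_le_mul_of_nonneg_right (hF.mono θ f hθ hf) hG0
    · rw [hY _ e 2 h, hY _ e 2 h, ← sub_mul, ← sub_mul]
      have hF0 : 0 ≤ F (update θ e 2) - F θ := by
        have := hF.up θ e hθ he
        linarith
      rcases hor f with h' | h'
      · have e1 : F (update (update θ f 0) e 2) = F (update θ e 2) := by
          rw [update_comm hef.symm]
          exact hX _ f 0 h'
        rw [e1, hX θ f 0 h']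
        exact mul_le_mul_of_nonneg_left (hG.mono θ f hθ hf) hF0
      · rw [hY θ f 0 h']
        exact mul_le_mul_of_nonneg_right (hF.sub θ e f hθ hef he hf) (hG.nonneg θ hθ)

theorem Supp.mul {F G : (E → ℝ) → ℝ} {X Y : Finset E} (hX : Supp F X) (hY : Supp G Y) :
    Supp (fun θ => F θ * G θ) (X ∪ Y) := by
  intro θ e v he
  rw [mem_union, not_or] at he
  simp only
  rw [hX θ e v he.1, hY θ e v he.2]

theorem isPot_prod_aux {ι : Type*} [DecidableEq ι] (s : Finset ι) (F : ι → (E → ℝ) → ℝ)
    (X : ι → Finset E) (h : ∀ i ∈ s, IsPot (F i)) (hX : ∀ i ∈ s, Supp (F i) (X i))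
    (hdisj : ∀ i ∈ s, ∀ j ∈ s, i ≠ j → Disjoint (X i) (X j)) :
    IsPot (fun θ => ∏ i ∈ s, F i θ) ∧ Supp (fun θ => ∏ i ∈ s, F i θ) (s.biUnion X) := by
  induction s using Finset.induction_on with
  | empty =>
    constructor
    · simpa using isPot_const (E := E) zero_le_one
    · simpa using supp_const (E := E) (c := 1)
  | insert a s ha ih =>
    obtain ⟨h1, h2⟩ := ih (fun i hi => h i (mem_insert_of_mem hi))
      (fun i hi => hX i (mem_insert_of_mem hi))
      (fun i hi j hj hij => hdisj i (mem_insert_of_mem hi) j (mem_insert_of_mem hj) hij)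
    have ha1 := h a (mem_insert_self _ _)
    have ha2 := hX a (mem_insert_self _ _)
    have hd : Disjoint (X a) (s.biUnion X) := by
      rw [Finset.disjoint_biUnion_right]
      intro i hi
      exact hdisj a (mem_insert_self _ _) i (mem_insert_of_mem hi) (by rintro rfl; exact ha hi)
    constructor
    · have := ha1.mul h1 ha2 h2 hd
      simpa [prod_insert ha] using this
    · have := ha2.mul h2
      simpa [prod_insert ha, biUnion_insert] using this

theorem isPot_prod {ι : Type*} [DecidableEq ι] (s : Finset ι) (F : ι → (E → ℝ) → ℝ)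
    (X : ι → Finset E) (h : ∀ i ∈ s, IsPot (F i)) (hX : ∀ i ∈ s, Supp (F i) (X i))
    (hdisj : ∀ i ∈ s, ∀ j ∈ s, i ≠ j → Disjoint (X i) (X j)) :
    IsPot (fun θ => ∏ i ∈ s, F i θ) :=
  (isPot_prod_aux s F X h hX hdisj).1

/-- The monomial of a finite set of edges. -/
theorem isPot_monomial (A : Finset E) : IsPot (fun θ : E → ℝ => ∏ e ∈ A, θ e) :=
  isPot_prod A (fun e θ => θ e) (fun e => {e}) (fun e _ => isPot_coord e)
    (fun e _ => supp_coord e) (fun i _ j _ hij => by simpa using hij)

theorem supp_monomial (A : Finset E) : Supp (fun θ : E → ℝ => ∏ e ∈ A, θ e) A := by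
  intro θ e v he
  simp only
  apply prod_congr rfl
  intro f hf
  rw [update_of_ne]
  rintro rfl
  exact he hf

/-- The building blocks `1 - lam + lam * θ^A`. -/
theorem isPot_block (A : Finset E) {lam : ℝ} (h0 : 0 ≤ lam) (h1 : lam ≤ 1) :
    IsPot (fun θ : E → ℝ => (1 - lam) + lam * ∏ e ∈ A, θ e) :=
  (isPot_const (by linarith)).add ((isPot_monomial A).const_mul h0)

theorem supp_block (A : Finset E) (lam : ℝ) :
    Supp (fun θ : E → ℝ => (1 - lam) + lam * ∏ e ∈ A, θ e) A :=
  ((supp_monomial A).const_mul lam).const_add (1 - lam)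

/-- Products of building blocks with disjoint supports. -/
theorem isPot_blocks {ι : Type*} [DecidableEq ι] (s : Finset ι) (A : ι → Finset E) {lam : ℝ}
    (h0 : 0 ≤ lam) (h1 : lam ≤ 1) (hdisj : ∀ i ∈ s, ∀ j ∈ s, i ≠ j → Disjoint (A i) (A j)) :
    IsPot (fun θ : E → ℝ => ∏ i ∈ s, ((1 - lam) + lam * ∏ e ∈ A i, θ e)) :=
  isPot_prod s (fun i θ => (1 - lam) + lam * ∏ e ∈ A i, θ e) A (fun i _ => isPot_block (A i) h0 h1)
    (fun i _ => supp_block (A i) lam) hdisj

/-- The Erdős–Selfridge step: Breaker takes the free edge which minimises the potential; then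
whatever Maker takes next, the potential is at most the present one. -/
theorem IsPot.exists_reply {F : (E → ℝ) → ℝ} (hF : IsPot F) (θ : E → ℝ) (hθ : ∀ e, 0 ≤ θ e)
    (free : Finset E) (hfree : ∀ e ∈ free, θ e = 1) (hne : free.Nonempty) :
    ∃ f ∈ free, ∀ e ∈ free, e ≠ f → F (update (update θ f 0) e 2) ≤ F θ := by
  obtain ⟨f, hf, hmin⟩ := free.exists_min_image (fun f => F (update θ f 0)) hne
  refine ⟨f, hf, ?_⟩
  intro e he hef
  have h1 := hF.sub θ e f hθ hef (hfree e he) (hfree f hf)
  have h2 := hF.affine θ e (hfree e he)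
  have h3 := hmin e he
  linarith

end Pool.Agent.CliqueGame
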