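import Pool.Agent.helper39.CliqueGame.Game
import Pool.Agent.helper39.CliqueGame.Pot

/-!
# Breaker's strategy with an entrance potential
-/

set_option autoImplicit false

open Finset Function

namespace Pool.Agent.CliqueGame

variable {W : Type*} [DecidableEq W]

/-- The value of an edge in the position `(M, B)`. -/
noncomputable def stVal (M B : Finset (Sym2 W)) : Sym2 W → ℝ :=
  fun e => if e ∈ M then 2 else if e ∈ B then 0 else 1

theorem stVal_nonneg (M B : Finset (Sym2 W)) (e : Sym2 W) : 0 ≤ stVal M B e := by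
  unfold stVal
  split_ifs <;> norm_num

theorem stVal_insert_left (M B : Finset (Sym2 W)) (e : Sym2 W) :
    stVal (insert e M) B = update (stVal M B) e 2 := by
  funext f
  by_cases h : f = e
  · subst h
    simp [stVal]
  · rw [update_of_ne h]
    simp [stVal, h]

theorem stVal_insert_right (M B : Finset (Sym2 W)) (f : Sym2 W) (hf : f ∉ M) :
    stVal M (insert f B) = update (stVal M B) f 0 := by
  funext g
  by_cases h : g = f
  · subst h
    simp [stVal, hf]
  · rw [update_of_ne h]
    simp [stVal, h]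

theorem stVal_free {M B : Finset (Sym2 W)} {e : Sym2 W} (h1 : e ∉ M) (h2 : e ∉ B) :
    stVal M B e = 1 := by
  simp [stVal, h1, h2]

/-- The edges inside a vertex set. -/
def pairsIn (S : Finset W) : Finset (Sym2 W) := S.sym2.filter (fun e => ¬ e.IsDiag)

theorem mem_pairsIn {S : Finset W} {x y : W} :
    s(x, y) ∈ pairsIn S ↔ x ∈ S ∧ y ∈ S ∧ x ≠ y := by
  simp [pairsIn, and_assoc]

theorem card_pairsIn (S : Finset W) : (pairsIn S).card = S.card.choose 2 := by
  rw [← Sym2.card_image_offDiag]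
  congr 1
  ext e
  induction e using Sym2.ind with
  | _ x y =>
    rw [mem_pairsIn]
    simp only [mem_image, mem_offDiag, Prod.exists, Function.uncurry_apply_pair, Sym2.eq_iff]
    constructor
    · rintro ⟨h1, h2, h3⟩
      exact ⟨x, y, ⟨h1, h2, h3⟩, Or.inl ⟨rfl, rfl⟩⟩
    · rintro ⟨a, b, ⟨h1, h2, h3⟩, ⟨rfl, rfl⟩ | ⟨rfl, rfl⟩⟩
      · exact ⟨h1, h2, h3⟩
      · exact ⟨h2, h1, h3.symm⟩

/-- The weight of a vertex set: the product of the values of its pairs. -/
noncomputable def wt (θ : Sym2 W → ℝ) (S : Finset W) : ℝ := ∏ e ∈ pairsIn S, θ e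

theorem isPot_wt (S : Finset W) : IsPot (fun θ => wt θ S) := isPot_monomial _

variable [Fintype W]

/-- The free edges of a position. -/
def freeEdges (M B : Finset (Sym2 W)) : Finset (Sym2 W) :=
  univ.filter (fun e => ¬ e.IsDiag ∧ e ∉ M ∧ e ∉ B)

theorem mem_freeEdges {M B : Finset (Sym2 W)} {e : Sym2 W} :
    e ∈ freeEdges M B ↔ ¬ e.IsDiag ∧ e ∉ M ∧ e ∉ B := by
  simp [freeEdges]

theorem freeEdges_nonempty {M B : Finset (Sym2 W)}
    (h : M.card + B.card < (Fintype.card W).choose 2) : (freeEdges M B).Nonempty := by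
  by_contra hcon
  rw [not_nonempty_iff_eq_empty] at hcon
  have h1 : pairsIn (univ : Finset W) ⊆ M ∪ B := by
    intro e he
    have hd : ¬ e.IsDiag := by
      simp only [pairsIn, mem_filter] at he
      exact he.2
    by_contra hMB
    rw [mem_union, not_or] at hMB
    have : e ∈ freeEdges M B := mem_freeEdges.2 ⟨hd, hMB.1, hMB.2⟩
    rw [hcon] at this
    simp at this
  have h2 := card_le_card h1
  rw [card_pairsIn, card_univ] at h2
  have h3 := card_union_le M B
  omega

/-- The total potential when the sets in `𝒮` have entered. -/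
noncomputable def totalPot (P : (Sym2 W → ℝ) → ℝ) (c : ℝ) (𝒮 : Finset (Finset W))
    (θ : Sym2 W → ℝ) : ℝ := P θ + c * ∑ S ∈ 𝒮, wt θ S

omit [Fintype W] in
theorem isPot_totalPot {P : (Sym2 W → ℝ) → ℝ} (hP : IsPot P) {c : ℝ} (hc : 0 ≤ c)
    (𝒮 : Finset (Finset W)) : IsPot (totalPot P c 𝒮) :=
  hP.add ((isPot_sum 𝒮 (fun S θ => wt θ S) (fun S _ => isPot_wt S)).const_mul hc)

omit [DecidableEq W] [Fintype W] in
theorem one_nonneg' : ∀ e : Sym2 W, 0 ≤ (fun _ => (1 : ℝ)) e := fun _ => zero_le_one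

omit [Fintype W] in
theorem wt_of_clique {M B : Finset (Sym2 W)} {S : Finset W}
    (h : ∀ x ∈ S, ∀ y ∈ S, x ≠ y → s(x, y) ∈ M) :
    wt (stVal M B) S = 2 ^ (S.card.choose 2) := by
  unfold wt
  rw [← card_pairsIn, ← prod_const]
  apply prod_congr rfl
  intro e he
  induction e using Sym2.ind with
  | _ x y =>
    obtain ⟨hx, hy, hxy⟩ := mem_pairsIn.1 he
    simp [stVal, h x hx y hy hxy]

/-- The main loop: a static potential `P` which controls the entrances, plus the entrance
potential. -/
theorem not_win_of_potential (q m : ℕ) (P : (Sym2 W → ℝ) → ℝ) (hP : IsPot P)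
    (hP0 : P (fun _ => 1) ≤ 1 / 16) (Ent : Finset (Sym2 W) → Finset W → Prop)
    (δ : ℝ) (hδ0 : 0 ≤ δ) (hδ : (m : ℝ) * δ ≤ 1 / 4)
    (hent0 : ∀ S : Finset W, ¬ Ent ∅ S)
    (hentq : ∀ (M : Finset (Sym2 W)) (S : Finset W), S.card = q →
      (∀ x ∈ S, ∀ y ∈ S, x ≠ y → s(x, y) ∈ M) → Ent M S)
    (hadd : ∀ (M B : Finset (Sym2 W)) (e : Sym2 W) (𝒯 : Finset (Finset W)), M.card + 1 ≤ m →
      e ∈ freeEdges M B → (∀ f ∈ M, ¬ f.IsDiag) →
      (∀ f ∈ M, f ∉ B) → P (stVal (insert e M) B) ≤ 1 / 2 →
      (∀ S ∈ 𝒯, S.card = q ∧ ¬ Ent M S ∧ Ent (insert e M) S) →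
      ∑ S ∈ 𝒯, wt (stVal (insert e M) B) S ≤ 2 ^ (q.choose 2) * δ)
    (hboard : 2 * m < (Fintype.card W).choose 2) :
    ¬ Win (V := W) q m ∅ ∅ := by
  classical
  set c : ℝ := ((2 : ℝ) ^ (q.choose 2))⁻¹ with hc
  have hc0 : 0 < c := by positivity
  have key : ∀ (n : ℕ) (M B : Finset (Sym2 W)) (𝒮 : Finset (Finset W)), M.card + n = m →
      B.card ≤ M.card → (∀ f ∈ M, ¬ f.IsDiag) → (∀ f ∈ M, f ∉ B) →
      (∀ S : Finset W, S.card = q → S ∉ 𝒮 → ¬ Ent M S) →
      (∀ e ∈ freeEdges M B, totalPot P c 𝒮 (update (stVal M B) e 2) ≤ 1 / 8 + (M.card : ℝ) * δ) →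
      ¬ Win q n M B := by
    intro n
    induction n with
    | zero =>
      intro M B 𝒮 hm hBM hMd hMB hent hpot hwin
      obtain ⟨S, hS, hS'⟩ := hwin
      have hS'' : ∀ x ∈ S, ∀ y ∈ S, x ≠ y → s(x, y) ∈ M := fun x hx y hy hxy => by
        simpa using hS' x hx y hy hxy
      have hE := hentq M S hS hS''
      have hSmem : S ∈ 𝒮 := by
        by_contra h
        exact hent S hS h hE
      obtain ⟨e, he⟩ := freeEdges_nonempty (M := M) (B := B) (by omega)
      have h1 := hpot e he
      obtain ⟨hed, heM, heB⟩ := mem_freeEdges.1 he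
      have h2 : (totalPot P c 𝒮) (stVal M B) ≤ totalPot P c 𝒮 (update (stVal M B) e 2) :=
        (isPot_totalPot hP hc0.le 𝒮).up _ e (stVal_nonneg M B) (stVal_free heM heB)
      have h3 : 1 ≤ totalPot P c 𝒮 (stVal M B) := by
        unfold totalPot
        have h4 : 0 ≤ P (stVal M B) := hP.nonneg _ (stVal_nonneg M B)
        have h5 : wt (stVal M B) S ≤ ∑ S ∈ 𝒮, wt (stVal M B) S :=
          single_le_sum (f := fun S => wt (stVal M B) S)
            (fun S _ => (isPot_wt S).nonneg _ (stVal_nonneg M B)) hSmem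
        rw [wt_of_clique hS'', hS] at h5
        have h6 : c * 2 ^ (q.choose 2) = 1 := by
          rw [hc]; exact inv_mul_cancel₀ (by positivity)
        have h7 := mul_le_mul_of_nonneg_left h5 hc0.le
        rw [h6] at h7
        linarith
      have hm' : (M.card : ℝ) = m := by
        have : M.card = m := by omega
        rw [this]
      rw [hm'] at h1
      linarith
    | succ n ih =>
      intro M B 𝒮 hm hBM hMd hMB hent hpot hwin
      obtain ⟨e, hed, heM, heB, hwin⟩ := hwin
      have hefree : e ∈ freeEdges M B := mem_freeEdges.2 ⟨hed, heM, heB⟩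
      set M' := insert e M with hM'
      have hMcard : M'.card = M.card + 1 := card_insert_of_notMem heM
      set 𝒯 : Finset (Finset W) :=
        univ.filter (fun S => S.card = q ∧ S ∉ 𝒮 ∧ Ent M' S) with h𝒯
      have hpe := hpot e hefree
      rw [← stVal_insert_left] at hpe
      have hMm : (M.card : ℝ) * δ ≤ 1 / 4 := by
        refine le_trans ?_ hδ
        apply mul_le_mul_of_nonneg_right _ hδ0
        exact_mod_cast (by omega : M.card ≤ m)
      have hsum0 : 0 ≤ c * ∑ S ∈ 𝒮, wt (stVal M' B) S :=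
        mul_nonneg hc0.le (sum_nonneg (fun S _ => (isPot_wt S).nonneg _ (stVal_nonneg M' B)))
      have hPhalf : P (stVal M' B) ≤ 1 / 2 := by
        unfold totalPot at hpe
        linarith
      have hadd' := hadd M B e 𝒯 (by omega) hefree hMd hMB hPhalf (by
        intro S hS
        simp only [h𝒯, mem_filter, mem_univ, true_and] at hS
        exact ⟨hS.1, hent S hS.1 hS.2.1, hS.2.2⟩)
      have hdisj : Disjoint 𝒮 𝒯 := by
        rw [Finset.disjoint_left]
        intro S h1 h2
        simp only [h𝒯, mem_filter, mem_univ, true_and] at h2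
        exact h2.2.1 h1
      set 𝒮' := 𝒮 ∪ 𝒯 with h𝒮'
      have hpot' : totalPot P c 𝒮' (stVal M' B) ≤ 1 / 8 + ((M.card : ℝ) + 1) * δ := by
        unfold totalPot at hpe ⊢
        rw [h𝒮', sum_union hdisj, mul_add]
        have h6 : c * ∑ S ∈ 𝒯, wt (stVal M' B) S ≤ δ := by
          have h7 := mul_le_mul_of_nonneg_left hadd' hc0.le
          rw [← mul_assoc, hc, inv_mul_cancel₀ (by positivity), one_mul] at h7
          exact h7
        linarith
      obtain ⟨f, hf, hfmin⟩ := (isPot_totalPot hP hc0.le 𝒮').exists_reply (stVal M' B)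
        (stVal_nonneg M' B) (freeEdges M' B) (by
          intro g hg
          obtain ⟨_, h1, h2⟩ := mem_freeEdges.1 hg
          exact stVal_free h1 h2) (freeEdges_nonempty (by omega))
      obtain ⟨hfd, hfM, hfB⟩ := mem_freeEdges.1 hf
      refine ih M' (insert f B) 𝒮' (by omega) ?_ ?_ ?_ ?_ ?_ (hwin f hfd hfM hfB)
      · rw [card_insert_of_notMem hfB]; omega
      · intro g hg
        rcases mem_insert.1 hg with rfl | hg
        · exact hed
        · exact hMd g hg
      · intro g hg hg'
        rcases mem_insert.1 hg' with rfl | hg'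
        · exact hfM hg
        · rcases mem_insert.1 hg with rfl | hg
          · exact heB hg'
          · exact hMB g hg hg'
      · intro S hS hSn hE
        apply hSn
        rw [h𝒮', mem_union]
        by_cases hS1 : S ∈ 𝒮
        · exact Or.inl hS1
        · right
          simp only [h𝒯, mem_filter, mem_univ, true_and]
          exact ⟨hS, hS1, hE⟩
      · intro g hg
        obtain ⟨hgd, hgM, hgB⟩ := mem_freeEdges.1 hg
        have hgf : g ≠ f := by
          rintro rfl
          exact hgB (mem_insert_self _ _)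
        have hgfree : g ∈ freeEdges M' B :=
          mem_freeEdges.2 ⟨hgd, hgM, fun h => hgB (mem_insert_of_mem h)⟩
        have h8 := hfmin g hgfree hgf
        rw [← stVal_insert_right M' B f hfM] at h8
        rw [hMcard]
        push_cast
        linarith
  refine key m ∅ ∅ ∅ (by simp) le_rfl (by simp) (by simp) (fun S _ _ => hent0 S) ?_
  intro e he
  obtain ⟨hed, _, _⟩ := mem_freeEdges.1 he
  have h1 : stVal (∅ : Finset (Sym2 W)) ∅ = fun _ => 1 := by
    funext e; simp [stVal]
  rw [h1]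
  have h2 := hP.double (fun _ => 1) e (fun _ => zero_le_one) rfl
  unfold totalPot
  simp only [sum_empty, mul_zero, add_zero, card_empty, Nat.cast_zero, zero_mul]
  linarith

end Pool.Agent.CliqueGame
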