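import Pool.Agent.helper39.CliqueGame.Assemble

/-!
# Numerical choice of the parameters
-/

set_option autoImplicit false

open Finset Function

namespace Pool.Agent.CliqueGame

theorem card_small_le {W : Type*} [DecidableEq W] [Fintype W] (q : ℕ) (hW : 1 ≤ Fintype.card W) :
    ((univ : Finset (Finset W)).filter (fun V => V.card ≤ q)).card ≤
      (q + 1) * Fintype.card W ^ q := by
  classical
  have h1 : (univ : Finset (Finset W)).filter (fun V => V.card ≤ q) ⊆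
      (range (q + 1)).biUnion (fun r => powersetCard r (univ : Finset W)) := by
    intro V hV
    rw [mem_filter] at hV
    rw [mem_biUnion]
    exact ⟨V.card, mem_range.2 (Nat.lt_succ_of_le hV.2), by simp [mem_powersetCard]⟩
  refine (card_le_card h1).trans (card_biUnion_le.trans ?_)
  calc ∑ r ∈ range (q + 1), (powersetCard r (univ : Finset W)).card
      ≤ ∑ r ∈ range (q + 1), Fintype.card W ^ q := by
        apply sum_le_sum
        intro r hr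
        rw [card_powersetCard, card_univ]
        refine (Nat.choose_le_pow _ _).trans ?_
        exact Nat.pow_le_pow_right hW (Nat.lt_succ_iff.1 (mem_range.1 hr))
    _ = (q + 1) * Fintype.card W ^ q := by rw [sum_const, card_range, smul_eq_mul]

theorem exp_half_lt_two : Real.exp (1 / 2) ≤ 2 := by
  have h1 : Real.exp (1 / 2) ^ 2 = Real.exp 1 := by
    rw [← Real.exp_nat_mul]; norm_num
  have h2 := Real.exp_one_lt_d9
  have h3 := Real.exp_pos (1 / 2)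
  nlinarith

/-- The exponent inequality. -/
theorem exponent_ineq {q μ l h κ : ℕ} (hκ : κ + 2 * l = μ) (hκ2 : 2 ≤ κ)
    (hh : 2 * h ≤ μ) (hμ : 3 * μ + 32 * l + 264 ≤ 2 * q) :
    1 + (5 * l + 23) * κ + (κ.choose 2 + (h + 3).choose 2) + (μ + 5) * (q - (κ - 1)) +
      (μ + 3 + κ) + (μ + 2) ≤ q.choose 2 := by
  obtain ⟨k, rfl⟩ : ∃ k, κ = k + 1 := ⟨κ - 1, by omega⟩
  have hq : k ≤ q := by omega
  rw [Nat.add_sub_cancel]
  have key : ((1 + (5 * l + 23) * (k + 1) + ((k + 1).choose 2 + (h + 3).choose 2) +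
      (μ + 5) * (q - k) + (μ + 3 + (k + 1)) + (μ + 2) : ℕ) : ℝ) ≤ (q.choose 2 : ℕ) := by
    push_cast [Nat.cast_choose_two, Nat.cast_sub hq]
    have e1 : (μ : ℝ) = k + 1 + 2 * l := by rw [← hκ]; push_cast; ring
    have e2 : (3 : ℝ) * μ + 32 * l + 264 ≤ 2 * q := by exact_mod_cast hμ
    have e3 : (2 : ℝ) * h ≤ μ := by exact_mod_cast hh
    have hl : (0 : ℝ) ≤ l := Nat.cast_nonneg _
    have hk : (0 : ℝ) ≤ k := Nat.cast_nonneg _
    have hh0 : (0 : ℝ) ≤ h := Nat.cast_nonneg _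
    obtain ⟨x, hx, hxq⟩ : ∃ x : ℝ, 0 ≤ x ∧ (q : ℝ) = 3 / 2 * μ + 16 * l + 132 + x :=
      ⟨q - (3 / 2 * μ + 16 * l + 132), by linarith, by ring⟩
    have e4 : ((h : ℝ) + 3) * (h + 3 - 1) / 2 ≤ (μ / 2 + 3) * (μ / 2 + 2) / 2 := by nlinarith
    rw [hxq, e1] at *
    nlinarith [mul_nonneg hl hk, mul_nonneg hx hk, mul_nonneg hl hl, mul_nonneg hx hl,
      mul_nonneg hx hx, mul_nonneg hk hk]
  exact_mod_cast key

theorem not_win_numeric {q μ l m : ℕ} (hm : m ≤ 2 ^ μ) (hq : q ≤ 2 ^ l) (hμl : 2 * l + 2 ≤ μ)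
    (hμ : 3 * μ + 32 * l + 264 ≤ 2 * q) :
    ¬ Win (V := Fin (2 ^ (μ + 2))) q m ∅ ∅ := by
  obtain ⟨κ, hκ⟩ : ∃ κ, κ + 2 * l = μ := ⟨μ - 2 * l, by omega⟩
  obtain ⟨k, rfl⟩ : ∃ k, κ = k + 1 := ⟨κ - 1, by omega⟩
  set h := μ / 2 with hh
  have hh1 : 2 * h ≤ μ := by omega
  have hh2 : μ ≤ 2 * h + 1 := by omega
  have hcardW : Fintype.card (Fin (2 ^ (μ + 2))) = 2 ^ (μ + 2) := Fintype.card_fin _
  have hμ2l : μ + 4 ≤ 2 ^ (l + 1) := by rw [pow_succ]; omega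
  have hκ2l : k + 1 + 1 ≤ 2 ^ l := by omega
  have hlog2 : Real.log 2 < 1 := by
    have := Real.log_two_lt_d9
    linarith
  have hlog20 : 0 < Real.log 2 := Real.log_pos one_lt_two
  have h2l : (0 : ℝ) < 2 ^ l := by positivity
  apply not_win_of_params q m k (2 ^ (h + 1)) (2 ^ (3 * l + 12)) (h + 2) (1 / 2 ^ (l + 2))
    (2 ^ (4 * l + 17)) (2 ^ (5 * l + 21)) (2 ^ (5 * l + 22))
    ((q + 1) * (2 ^ (μ + 2)) ^ q) ((2 ^ (μ + 2)) ^ (2 * 2 ^ (3 * l + 12))) (2 ^ (μ + 5))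
    (1 / 2 ^ (μ + 2))
  · omega
  · omega
  · exact Nat.one_le_two_pow
  · positivity
  · positivity
  · rw [div_le_one (by positivity)]
    exact one_le_pow₀ one_le_two
  · have := card_small_le (W := Fin (2 ^ (μ + 2))) q (by rw [hcardW]; exact Nat.one_le_two_pow)
    rw [hcardW] at this
    exact_mod_cast this
  · rw [card_product, card_powersetCard, card_univ, hcardW, Nat.cast_mul, two_mul,
      pow_add ((2 : ℝ) ^ (μ + 2))]
    have h1 : (((2 ^ (μ + 2)).choose (2 ^ (3 * l + 12)) : ℕ) : ℝ) ≤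
        (2 ^ (μ + 2)) ^ (2 ^ (3 * l + 12)) := by
      exact_mod_cast Nat.choose_le_pow _ _
    exact mul_le_mul h1 h1 (Nat.cast_nonneg _) (by positivity)
  · positivity
  · positivity
  · -- `log (16 a₂) < ε² n₀² / 32`
    have e1 : (16 : ℝ) * (2 ^ (μ + 2)) ^ (2 * 2 ^ (3 * l + 12)) =
        2 ^ (4 + (μ + 2) * (2 * 2 ^ (3 * l + 12))) := by
      rw [pow_add (2 : ℝ) 4, ← pow_mul]; norm_num
    have e2 : ((1 : ℝ) / 2 ^ (l + 2)) ^ 2 * ((2 ^ (3 * l + 12) : ℕ) : ℝ) ^ 2 / 32 =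
        2 ^ (l + 3) * 2 ^ (3 * l + 12) := by
      push_cast
      rw [div_pow, one_pow, ← pow_mul, ← pow_mul]
      rw [div_mul_eq_mul_div, one_mul, div_div, div_eq_iff (by positivity)]
      have : (32 : ℝ) = 2 ^ 5 := by norm_num
      rw [this, ← pow_add, ← pow_add, ← pow_add]
      congr 1
      ring
    rw [e1, e2, Real.log_pow]
    have e3 : ((4 + (μ + 2) * (2 * 2 ^ (3 * l + 12)) : ℕ) : ℝ) < 2 ^ (l + 3) * 2 ^ (3 * l + 12) := by
      have : 4 + (μ + 2) * (2 * 2 ^ (3 * l + 12)) < 2 ^ (l + 3) * 2 ^ (3 * l + 12) := by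
        have h1 : 2 ^ (l + 3) = 4 * 2 ^ (l + 1) := by ring
        have h2 : 1 ≤ 2 ^ (3 * l + 12) := Nat.one_le_two_pow
        have h3 : 4 ≤ 2 ^ (l + 1) := by omega
        rw [h1]
        nlinarith
      exact_mod_cast this
    have e4 : (0 : ℝ) ≤ ((4 + (μ + 2) * (2 * 2 ^ (3 * l + 12)) : ℕ) : ℝ) := Nat.cast_nonneg _
    nlinarith
  · exact one_le_pow₀ one_le_two
  · -- `L`
    rw [hcardW]
    have e1 : Real.log (16 * ((q + 1) * (2 ^ (μ + 2)) ^ q)) ≤ 2 ^ (2 * l + 1) := by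
      rw [Real.log_mul (by norm_num) (by positivity), Real.log_mul (by positivity) (by positivity),
        ← pow_mul, Real.log_pow]
      have h1 : Real.log 16 ≤ 4 := by
        have : (16 : ℝ) = 2 ^ 4 := by norm_num
        rw [this, Real.log_pow]
        push_cast
        linarith
      have h2 : Real.log ((q : ℝ) + 1) ≤ q := by
        have := Real.log_le_sub_one_of_pos (show (0 : ℝ) < (q : ℝ) + 1 by positivity)
        linarith
      have h3 : (((μ + 2) * q : ℕ) : ℝ) * Real.log 2 ≤ ((μ + 2) * q : ℕ) := by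
        have : (0 : ℝ) ≤ (((μ + 2) * q : ℕ) : ℝ) := Nat.cast_nonneg _
        nlinarith
      have h4 : (4 : ℝ) + q + ((μ + 2) * q : ℕ) ≤ 2 ^ (2 * l + 1) := by
        have : 4 + q + (μ + 2) * q ≤ 2 ^ (2 * l + 1) := by
          have h5 : 2 ^ (2 * l + 1) = 2 ^ (l + 1) * 2 ^ l := by rw [← pow_add]; congr 1; ring
          rw [h5]
          have h6 : (μ + 4) * q ≤ 2 ^ (l + 1) * 2 ^ l := Nat.mul_le_mul hμ2l hq
          nlinarith
        exact_mod_cast this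
      linarith
    have e2 : (2 : ℝ) ^ (k + 1 + 1) * Real.log (16 * ((q + 1) * (2 ^ (μ + 2)) ^ q)) ≤
        2 ^ (μ + 2) := by
      calc (2 : ℝ) ^ (k + 1 + 1) * Real.log (16 * ((q + 1) * (2 ^ (μ + 2)) ^ q))
          ≤ 2 ^ (k + 1 + 1) * 2 ^ (2 * l + 1) := mul_le_mul_of_nonneg_left e1 (by positivity)
        _ = 2 ^ (μ + 2) := by rw [← pow_add]; congr 1; omega
    have e3 : (2 : ℝ) ^ (μ + 5) = 8 * 2 ^ (μ + 2) := by ring
    rw [e3]
    push_cast
    have : (0 : ℝ) < 2 ^ (μ + 2) := by positivity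
    linarith
  · push_cast
    rw [div_mul_eq_mul_div, one_mul, le_div_iff₀ (by positivity)]
    apply le_of_eq
    ring
  · rw [div_mul_eq_mul_div, one_mul, le_div_iff₀ (by positivity)]
    apply le_of_eq
    ring
  · exact one_le_pow₀ one_le_two
  · -- `(1 + 2 ε)^(k+1) ≤ 2`
    have e1 : 1 + 2 * ((1 : ℝ) / 2 ^ (l + 2)) ≤ Real.exp (1 / 2 ^ (l + 1)) := by
      have h1 := Real.add_one_le_exp ((1 : ℝ) / 2 ^ (l + 1))
      have h2 : 2 * ((1 : ℝ) / 2 ^ (l + 2)) = 1 / 2 ^ (l + 1) := by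
        rw [pow_succ (2 : ℝ) (l + 1)]
        field_simp
      rw [h2]
      linarith
    calc (1 + 2 * ((1 : ℝ) / 2 ^ (l + 2))) ^ (k + 1) ≤ Real.exp (1 / 2 ^ (l + 1)) ^ (k + 1) :=
          pow_le_pow_left₀ (by positivity) e1 _
      _ = Real.exp (((k + 1 : ℕ) : ℝ) * (1 / 2 ^ (l + 1))) := by rw [← Real.exp_nat_mul]
      _ ≤ Real.exp (1 / 2) := by
          apply Real.exp_le_exp.2
          have h1 : ((k + 1 : ℕ) : ℝ) ≤ 2 ^ l := by exact_mod_cast (by omega : k + 1 ≤ 2 ^ l)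
          rw [pow_succ]
          rw [mul_one_div, div_le_div_iff₀ (by positivity) (by norm_num)]
          linarith
      _ ≤ 2 := exp_half_lt_two
  · apply le_of_eq
    ring
  · have : ((k + 1 : ℕ) + 1) * 2 ^ (3 * l + 12) ≤ 2 ^ (5 * l + 22) := by
      calc ((k + 1 : ℕ) + 1) * 2 ^ (3 * l + 12) ≤ 2 ^ l * 2 ^ (3 * l + 12) :=
            Nat.mul_le_mul_right _ hκ2l
        _ = 2 ^ (l + (3 * l + 12)) := by rw [← pow_add]
        _ ≤ 2 ^ (5 * l + 22) := Nat.pow_le_pow_right (by norm_num) (by omega)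
    exact_mod_cast this
  · intro v hv
    have h1 : 2 * m ≤ 2 ^ (h + 1) * 2 ^ (h + 1) := by
      calc 2 * m ≤ 2 * 2 ^ μ := by omega
        _ ≤ 2 * 2 ^ (2 * h + 1) := by
            apply Nat.mul_le_mul_left
            exact Nat.pow_le_pow_right (by norm_num) hh2
        _ = 2 ^ (h + 1) * 2 ^ (h + 1) := by rw [← pow_add]; ring
    have h2 : v ≤ 2 ^ (h + 1) := Nat.le_of_mul_le_mul_right (hv.trans h1) (by positivity)
    calc v + 2 ^ (h + 1) ≤ 2 ^ (h + 1) + 2 ^ (h + 1) := by omega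
      _ = 2 ^ (h + 2) := by ring
  · positivity
  · have h1 : (m : ℝ) ≤ 2 ^ μ := by exact_mod_cast hm
    rw [mul_one_div, div_le_div_iff₀ (by positivity) (by norm_num), pow_add]
    linarith
  · -- the total
    rw [hcardW]
    have e0 : (1 : ℝ) + ((2 ^ (μ + 2) : ℕ) : ℝ) * 2 ^ (k + 1) ≤ 2 ^ (μ + 3 + (k + 1)) := by
      push_cast
      have h1 : (1 : ℝ) ≤ 2 ^ (μ + 2) * 2 ^ (k + 1) := by
        rw [← pow_add]; exact one_le_pow₀ one_le_two
      calc (1 : ℝ) + 2 ^ (μ + 2) * 2 ^ (k + 1) ≤ 2 * (2 ^ (μ + 2) * 2 ^ (k + 1)) := by linarith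
        _ = 2 ^ (μ + 3 + (k + 1)) := by ring
    have e1 := exponent_ineq (q := q) (μ := μ) (l := l) (h := h) (κ := k + 1) hκ (by omega) hh1 hμ
    rw [Nat.add_sub_cancel] at e1
    have e2 : (2 : ℝ) ^ (1 + (5 * l + 23) * (k + 1) + ((k + 1).choose 2 + (h + 3).choose 2) +
        (μ + 5) * (q - k) + (μ + 3 + (k + 1)) + (μ + 2)) ≤ 2 ^ (q.choose 2) :=
      pow_le_pow_right₀ one_le_two e1
    rw [mul_one_div, le_div_iff₀ (by positivity)]
    refine le_trans ?_ e2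
    calc 2 * ((2 * (2 : ℝ) ^ (5 * l + 22)) ^ (k + 1) *
          2 ^ ((k + 1).choose 2 + (h + 2 + 1).choose 2)) *
          (2 ^ (μ + 5)) ^ (q - k) * (1 + ((2 ^ (μ + 2) : ℕ) : ℝ) * 2 ^ (k + 1)) * 2 ^ (μ + 2)
        ≤ 2 * ((2 * (2 : ℝ) ^ (5 * l + 22)) ^ (k + 1) *
          2 ^ ((k + 1).choose 2 + (h + 2 + 1).choose 2)) *
          (2 ^ (μ + 5)) ^ (q - k) * 2 ^ (μ + 3 + (k + 1)) * 2 ^ (μ + 2) := by
          apply mul_le_mul_of_nonneg_right _ (by positivity)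
          exact mul_le_mul_of_nonneg_left e0 (by positivity)
      _ = 2 ^ (1 + (5 * l + 23) * (k + 1) + ((k + 1).choose 2 + (h + 3).choose 2) +
        (μ + 5) * (q - k) + (μ + 3 + (k + 1)) + (μ + 2)) := by
          have e3 : 2 * (2 : ℝ) ^ (5 * l + 22) = 2 ^ (5 * l + 23) := by ring
          rw [e3, ← pow_mul, ← pow_mul, pow_add (2 : ℝ) _ (μ + 2), pow_add (2 : ℝ) _ (μ + 3 + (k + 1)),
            pow_add (2 : ℝ) _ ((μ + 5) * (q - k)), pow_add (2 : ℝ) (1 + (5 * l + 23) * (k + 1)),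
            pow_add (2 : ℝ) 1 ((5 * l + 23) * (k + 1)), pow_one]
          ring
  · rw [hcardW]
    have h1 : 2 ^ (μ + 2) = 4 * 2 ^ μ := by ring
    rw [Nat.choose_two_right, h1]
    have h2 : 1 ≤ 2 ^ μ := Nat.one_le_two_pow
    have h3 : 4 * 2 ^ μ * (4 * 2 ^ μ - 1) / 2 = 2 * 2 ^ μ * (4 * 2 ^ μ - 1) := by
      have : 4 * 2 ^ μ * (4 * 2 ^ μ - 1) = 2 * (2 * 2 ^ μ * (4 * 2 ^ μ - 1)) := by ring
      rw [this, Nat.mul_div_cancel_left _ (by norm_num)]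
    rw [h3]
    have h4 : 2 ≤ 4 * 2 ^ μ - 1 := by omega
    calc 2 * m ≤ 2 * 2 ^ μ := by omega
      _ < 2 * 2 ^ μ * 2 := by omega
      _ ≤ 2 * 2 ^ μ * (4 * 2 ^ μ - 1) := Nat.mul_le_mul_left _ h4

end Pool.Agent.CliqueGame
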