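import Pool.Agent.helper39.CliqueGame.Game

/-!
# From the infinite board to a finite board

If Maker wins in `n` rounds on the board `V`, he wins in `n` rounds on every board `W` with at least
`4 n` vertices (and `#W ≤ #V`).
-/

set_option autoImplicit false

open Finset

namespace Pool.Agent.CliqueGame

variable {V W : Type*} [DecidableEq V] [DecidableEq W]

omit [DecidableEq W] in
/-- The positions pulled back along an injection. -/
theorem map_swap_eq (ψ : W ↪ V) (M : Finset (Sym2 W)) (T : Finset W)
    (hM : ∀ e ∈ M, ∀ x ∈ e, x ∈ T) (a : W) (ha : a ∉ T) (u : V) (hu : u ∉ Set.range ψ) :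
    M.map (ψ.trans (Equiv.swap (ψ a) u).toEmbedding).sym2Map = M.map ψ.sym2Map := by
  have key : ∀ e ∈ M, (ψ.trans (Equiv.swap (ψ a) u).toEmbedding).sym2Map e = ψ.sym2Map e := by
    intro e he
    simp only [Function.Embedding.sym2Map_apply]
    apply Sym2.map_congr
    intro x hx
    have hxT := hM e he x hx
    simp only [Function.Embedding.trans_apply, Equiv.coe_toEmbedding]
    apply Equiv.swap_apply_of_ne_of_ne
    · intro h
      exact ha (ψ.injective h ▸ hxT)
    · intro h
      exact hu ⟨x, h⟩
  ext e
  simp only [mem_map]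
  constructor
  · rintro ⟨x, hx, rfl⟩
    exact ⟨x, hx, (key x hx).symm⟩
  · rintro ⟨x, hx, rfl⟩
    exact ⟨x, hx, key x hx⟩

/-- One can re-choose the injection so that its range contains a given vertex. -/
theorem exists_embedding_range (ψ : W ↪ V) (M B : Finset (Sym2 W)) (T : Finset W)
    (hM : ∀ e ∈ M, ∀ x ∈ e, x ∈ T) (hB : ∀ e ∈ B, ∀ x ∈ e, x ∈ T) (a : W) (ha : a ∉ T) (u : V) :
    ∃ (ψ' : W ↪ V) (T' : Finset W), T ⊆ T' ∧ T'.card ≤ T.card + 1 ∧
      M.map ψ'.sym2Map = M.map ψ.sym2Map ∧ B.map ψ'.sym2Map = B.map ψ.sym2Map ∧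
      (∀ x ∈ T, ψ' x = ψ x) ∧ ∃ x ∈ T', ψ' x = u := by
  by_cases hu : u ∈ Set.range ψ
  · obtain ⟨x, hx⟩ := hu
    exact ⟨ψ, insert x T, subset_insert _ _, card_insert_le _ _, rfl, rfl, fun _ _ => rfl,
      x, mem_insert_self _ _, hx⟩
  · refine ⟨ψ.trans (Equiv.swap (ψ a) u).toEmbedding, insert a T, subset_insert _ _,
      card_insert_le _ _, map_swap_eq ψ M T hM a ha u hu, map_swap_eq ψ B T hB a ha u hu, ?_,
      a, mem_insert_self _ _, ?_⟩
    · intro x hx
      simp only [Function.Embedding.trans_apply, Equiv.coe_toEmbedding]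
      apply Equiv.swap_apply_of_ne_of_ne
      · intro h
        exact ha (ψ.injective h ▸ hx)
      · intro h
        exact hu ⟨x, h⟩
    · simp

theorem hasClique_of_map {q : ℕ} (hq : 2 ≤ q) (ψ : W ↪ V) (M : Finset (Sym2 W))
    (h : HasClique q ((M.map ψ.sym2Map : Finset (Sym2 V)) : Set (Sym2 V))) :
    HasClique q (M : Set (Sym2 W)) := by
  classical
  obtain ⟨S, hS, hS'⟩ := h
  have hrange : ∀ x ∈ S, ∃ a, ψ a = x := by
    intro x hx
    obtain ⟨y, hy, hxy⟩ : ∃ y ∈ S, y ≠ x := by
      apply Finset.exists_mem_ne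
      omega
    have := hS' x hx y hy hxy.symm
    simp only [coe_map, Set.mem_image, mem_coe] at this
    obtain ⟨e, he, hex⟩ := this
    induction e using Sym2.ind with
    | _ a b =>
      simp only [Function.Embedding.sym2Map_apply, Sym2.map_mk, Sym2.eq_iff] at hex
      rcases hex with ⟨h1, _⟩ | ⟨_, h1⟩
      · exact ⟨a, h1⟩
      · exact ⟨b, h1⟩
  refine ⟨S.preimage ψ ψ.injective.injOn, ?_, ?_⟩
  · rw [← hS, Finset.card_preimage]
    congr 1
    apply Finset.filter_true_of_mem
    intro x hx
    exact hrange x hx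
  · intro x hx y hy hxy
    rw [mem_preimage] at hx hy
    have := hS' _ hx _ hy (fun h => hxy (ψ.injective h))
    simp only [coe_map, Set.mem_image, mem_coe] at this
    obtain ⟨e, he, hex⟩ := this
    have : e = s(x, y) := by
      apply ψ.sym2Map.injective
      rw [hex]
      simp [Function.Embedding.sym2Map_apply]
    rw [← this]
    exact he

theorem win_transfer {q : ℕ} (hq : 2 ≤ q) [Fintype W] :
    ∀ (n : ℕ) (ψ : W ↪ V) (M B : Finset (Sym2 W)) (T : Finset W),
      (∀ e ∈ M, ∀ x ∈ e, x ∈ T) → (∀ e ∈ B, ∀ x ∈ e, x ∈ T) → T.card + 4 * n ≤ Fintype.card W →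
      Win q n (M.map ψ.sym2Map) (B.map ψ.sym2Map) → Win q n M B := by
  intro n
  induction n with
  | zero =>
    intro ψ M B T _ _ _ h
    exact hasClique_of_map hq ψ M h
  | succ n ih =>
    intro ψ M B T hM hB hT h
    obtain ⟨e, he1, he2, he3, he4⟩ := h
    induction e using Sym2.ind with
    | _ u v =>
      have huv : u ≠ v := by simpa using he1
      obtain ⟨a, ha⟩ : ∃ a, a ∉ T := by
        by_contra hcon
        push Not at hcon
        have : T = univ := eq_univ_of_forall hcon
        rw [this, card_univ] at hT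
        omega
      obtain ⟨ψ1, T1, hTT1, hT1, hM1, hB1, hψ1, x, hxT1, hx⟩ :=
        exists_embedding_range ψ M B T hM hB a ha u
      obtain ⟨a', ha'⟩ : ∃ a, a ∉ T1 := by
        by_contra hcon
        push Not at hcon
        have : T1 = univ := eq_univ_of_forall hcon
        rw [this, card_univ] at hT1
        omega
      obtain ⟨ψ2, T2, hTT2, hT2, hM2, hB2, hψ2, y, hyT2, hy⟩ :=
        exists_embedding_range ψ1 M B T1 (fun e he x hx => hTT1 (hM e he x hx))
          (fun e he x hx => hTT1 (hB e he x hx)) a' ha' v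
      have hx2 : ψ2 x = u := by rw [hψ2 x hxT1, hx]
      have hmapxy : ψ2.sym2Map s(x, y) = s(u, v) := by
        simp [Function.Embedding.sym2Map_apply, hx2, hy]
      rw [hM1.symm, ← hM2] at he2 he4
      rw [hB1.symm, ← hB2] at he3 he4
      refine ⟨s(x, y), ?_, ?_, ?_, ?_⟩
      · simp only [Sym2.mk_isDiag_iff]
        rintro rfl
        exact huv (hx2.symm.trans hy)
      · intro hmem
        apply he2
        rw [← hmapxy]
        exact mem_map_of_mem _ hmem
      · intro hmem
        apply he3
        rw [← hmapxy]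
        exact mem_map_of_mem _ hmem
      · intro f hf1 hf2 hf3
        have hinsM : (insert s(x, y) M).map ψ2.sym2Map = insert s(u, v) (M.map ψ2.sym2Map) := by
          rw [map_insert, hmapxy]
        have hinsB : (insert f B).map ψ2.sym2Map = insert (ψ2.sym2Map f) (B.map ψ2.sym2Map) := by
          rw [map_insert]
        have hw := he4 (ψ2.sym2Map f) (by
          intro hd
          apply hf1
          induction f using Sym2.ind with
          | _ c d =>
            simp only [Function.Embedding.sym2Map_apply, Sym2.map_mk,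
              Sym2.mk_isDiag_iff] at hd ⊢
            exact ψ2.injective hd) (by
          rw [← hinsM]
          intro hmem
          exact hf2 ((mem_map' _).1 hmem)) (by
          intro hmem
          exact hf3 ((mem_map' _).1 hmem))
        rw [← hinsM, ← hinsB] at hw
        obtain ⟨c, d, rfl⟩ : ∃ c d, f = s(c, d) := by
          induction f using Sym2.ind with
          | _ c d => exact ⟨c, d, rfl⟩
        refine ih ψ2 _ _ (insert c (insert d T2)) ?_ ?_ ?_ hw
        · intro e he z hz
          rcases mem_insert.1 he with rfl | he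
          · rcases Sym2.mem_iff.1 hz with rfl | rfl
            · exact mem_insert_of_mem (mem_insert_of_mem (hTT2 hxT1))
            · exact mem_insert_of_mem (mem_insert_of_mem hyT2)
          · exact mem_insert_of_mem (mem_insert_of_mem (hTT2 (hTT1 (hM e he z hz))))
        · intro e he z hz
          rcases mem_insert.1 he with rfl | he
          · rcases Sym2.mem_iff.1 hz with rfl | rfl
            · exact mem_insert_self _ _
            · exact mem_insert_of_mem (mem_insert_self _ _)
          · exact mem_insert_of_mem (mem_insert_of_mem (hTT2 (hTT1 (hB e he z hz))))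
        · have h1 := card_insert_le c (insert d T2)
          have h2 := card_insert_le d T2
          omega

/-- If Maker wins within `n` moves on the infinite board, he does on the board with `N ≥ 4 n`
vertices. -/
theorem win_fin_of_win_nat {q n N : ℕ} (hq : 2 ≤ q) (hN : 4 * n ≤ N)
    (h : Win (V := ℕ) q n ∅ ∅) : Win (V := Fin N) q n ∅ ∅ := by
  refine win_transfer hq n (Fin.valEmbedding (n := N)) ∅ ∅ ∅ (by simp) (by simp) ?_ ?_
  · simpa using hN
  · simpa using h

end Pool.Agent.CliqueGame
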