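import Pool.Agent.helper39.CliqueGame.Equiv
import Pool.Agent.helper39.CliqueGame.Transfer
import Pool.Agent.helper39.CliqueGame.Numeric

/-!
# The lower bound for the move number
-/

set_option autoImplicit false

open Finset Function

namespace Pool.Agent.CliqueGame

theorem lt_of_makerWinsWithin {q μ l m : ℕ} (h : MakerWinsWithin q m) (hq2 : 2 ≤ q)
    (hq : q ≤ 2 ^ l) (hμl : 2 * l + 2 ≤ μ) (hμ : 3 * μ + 32 * l + 264 ≤ 2 * q) : 2 ^ μ < m := by
  by_contra hcon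
  push Not at hcon
  have h1 := win_of_makerWinsWithin h
  have h2 : Win (V := Fin (2 ^ (μ + 2))) q m ∅ ∅ := by
    apply win_fin_of_win_nat hq2 _ h1
    calc 4 * m ≤ 4 * 2 ^ μ := Nat.mul_le_mul_left _ hcon
      _ = 2 ^ (μ + 2) := by ring
  exact not_win_numeric hcon hq hμl hμ h2

theorem one_le_of_makerWinsWithin {q m : ℕ} (h : MakerWinsWithin q m) (hq2 : 2 ≤ q) : 1 ≤ m := by
  by_contra hcon
  have hm : m = 0 := by omega
  subst hm
  obtain ⟨σ, hσ⟩ := h
  obtain ⟨S, hS, hS'⟩ := (hσ (fun _ => s(0, 0))).2 (fun j hj => absurd hj (by omega))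
  have h1 : 1 < S.card := by omega
  obtain ⟨x, hx, y, hy, hxy⟩ := Finset.one_lt_card.1 h1
  obtain ⟨i, hi, _⟩ := hS' x hx y hy hxy
  omega

/-- The lower bound: if Maker can produce a `K_q` within `m` moves, then
`m ≥ 2^(2q/3) / q^116`. -/
theorem lower_bound {q m : ℕ} (hq2 : 2 ≤ q) (h : MakerWinsWithin q m) :
    (2 : ℝ) ^ (2 * (q : ℝ) / 3) ≤ (q : ℝ) ^ 116 * m := by
  have hm1 := one_le_of_makerWinsWithin h hq2
  have hm1' : (1 : ℝ) ≤ m := by exact_mod_cast hm1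
  have hq2' : (2 : ℝ) ≤ q := by exact_mod_cast hq2
  set l := Nat.clog 2 q with hl
  have hql : q ≤ 2 ^ l := Nat.le_pow_clog (by norm_num) q
  have hlq : 2 ^ l ≤ 2 * q := by
    have h1 : 2 ^ (l - 1) < q := Nat.pow_pred_clog_lt_self (by norm_num) (by omega)
    have h2 : 1 ≤ l := by
      by_contra hcon
      have : l = 0 := by omega
      rw [this] at hql
      omega
    calc 2 ^ l = 2 * 2 ^ (l - 1) := by
          rw [← pow_succ', Nat.sub_add_cancel h2]
      _ ≤ 2 * q := by omega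
  have hlq' : (2 : ℝ) ^ l ≤ 2 * q := by exact_mod_cast hlq
  have hlq2 : (2 : ℝ) ^ l ≤ (q : ℝ) ^ 2 := by nlinarith
  have h2pow : ∀ a b : ℕ, (2 : ℝ) ^ (a * l + b) ≤ (q : ℝ) ^ (2 * a + b) := by
    intro a b
    rw [pow_add, pow_add, mul_comm a l, pow_mul, pow_mul]
    apply mul_le_mul
    · exact pow_le_pow_left₀ (by positivity) hlq2 a
    · exact pow_le_pow_left₀ (by norm_num) hq2' b
    · positivity
    · positivity
  set μ := (2 * q - (32 * l + 264)) / 3 with hμ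
  by_cases hcase : 2 * l + 2 ≤ μ
  · have hcond : 3 * μ + 32 * l + 264 ≤ 2 * q := by omega
    have h1 := lt_of_makerWinsWithin h hq2 hql hcase hcond
    have h2 : 2 * q ≤ 3 * μ + (32 * l + 266) := by omega
    have h3 : (2 : ℝ) ^ (2 * (q : ℝ) / 3) ≤ (2 : ℝ) ^ ((μ : ℝ) + (11 * l + 89 : ℕ)) := by
      apply Real.rpow_le_rpow_of_exponent_le one_le_two
      have h4 : (2 : ℝ) * q ≤ 3 * μ + (32 * l + 266) := by exact_mod_cast h2
      push_cast
      have : (0 : ℝ) ≤ l := Nat.cast_nonneg _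
      linarith
    rw [Real.rpow_add (by norm_num), Real.rpow_natCast, Real.rpow_natCast] at h3
    have h4 : (2 : ℝ) ^ μ ≤ m := by exact_mod_cast h1.le
    have h5 : (2 : ℝ) ^ (11 * l + 89) ≤ (q : ℝ) ^ 116 :=
      (h2pow 11 89).trans (pow_le_pow_right₀ (by linarith) (by norm_num))
    calc (2 : ℝ) ^ (2 * (q : ℝ) / 3) ≤ 2 ^ μ * 2 ^ (11 * l + 89) := h3
      _ ≤ m * (q : ℝ) ^ 116 := mul_le_mul h4 h5 (by positivity) (by positivity)
      _ = (q : ℝ) ^ 116 * m := by ring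
  · have h2 : 2 * q ≤ 38 * l + 269 := by omega
    have h3 : (2 : ℝ) ^ (2 * (q : ℝ) / 3) ≤ (2 : ℝ) ^ (((13 * l + 90 : ℕ) : ℝ)) := by
      apply Real.rpow_le_rpow_of_exponent_le one_le_two
      have h4 : (2 : ℝ) * q ≤ 38 * l + 269 := by exact_mod_cast h2
      push_cast
      have : (0 : ℝ) ≤ l := Nat.cast_nonneg _
      linarith
    rw [Real.rpow_natCast] at h3
    have h5 : (2 : ℝ) ^ (13 * l + 90) ≤ (q : ℝ) ^ 116 :=
      (h2pow 13 90).trans (pow_le_pow_right₀ (by linarith) (by norm_num))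
    calc (2 : ℝ) ^ (2 * (q : ℝ) / 3) ≤ (q : ℝ) ^ 116 * 1 := by linarith
      _ ≤ (q : ℝ) ^ 116 * m := mul_le_mul_of_nonneg_left hm1' (by positivity)

end Pool.Agent.CliqueGame
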