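import Pool.Agent.helper39.CliqueGame.Entrance

/-!
# The static potential
-/

set_option autoImplicit false

open Finset Function

namespace Pool.Agent.CliqueGame

variable {W : Type*} [DecidableEq W]

/-! ### Elementary inequalities -/

theorem exp_neg_two_mul_le {lam : ℝ} (h1 : lam ≤ 1 / 2) (h0 : 0 ≤ lam) :
    Real.exp (-2 * lam) ≤ 1 - lam := by
  have hpos : 0 < 1 - lam := by linarith
  have h2 := Real.one_sub_inv_le_log_of_pos hpos
  have h3 : -2 * lam ≤ 1 - (1 - lam)⁻¹ := by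
    have h4 : (1 - lam)⁻¹ ≤ 1 + 2 * lam := by
      rw [inv_le_iff_one_le_mul₀ hpos]
      nlinarith
    linarith
  calc Real.exp (-2 * lam) ≤ Real.exp (Real.log (1 - lam)) := Real.exp_le_exp.2 (h3.trans h2)
    _ = 1 - lam := Real.exp_log hpos

theorem exp_half_le {z : ℝ} (h0 : 0 ≤ z) (h1 : z ≤ 1) : Real.exp (z / 2) ≤ 1 + z := by
  have hpos : 0 < 1 + z := by linarith
  have h2 := Real.one_sub_inv_le_log_of_pos hpos
  have h3 : z / 2 ≤ 1 - (1 + z)⁻¹ := by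
    have h4 : (1 + z)⁻¹ ≤ 1 - z / 2 := by
      rw [inv_le_iff_one_le_mul₀ hpos]
      nlinarith
    linarith
  calc Real.exp (z / 2) ≤ Real.exp (Real.log (1 + z)) := Real.exp_le_exp.2 (h3.trans h2)
    _ = 1 + z := Real.exp_log hpos

theorem exp_sub_sq_le {u : ℝ} (h0 : -(1 / 2) ≤ u) : Real.exp (u - 2 * u ^ 2) ≤ 1 + u := by
  have hpos : 0 < 1 + u := by linarith
  have h2 := Real.one_sub_inv_le_log_of_pos hpos
  have h3 : u - 2 * u ^ 2 ≤ 1 - (1 + u)⁻¹ := by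
    have h4 : (1 + u)⁻¹ ≤ 1 - (u - 2 * u ^ 2) := by
      rw [inv_le_iff_one_le_mul₀ hpos]
      nlinarith [sq_nonneg u, mul_nonneg (sq_nonneg u) (show 0 ≤ 1 + 2 * u by linarith)]
    linarith
  calc Real.exp (u - 2 * u ^ 2) ≤ Real.exp (Real.log (1 + u)) := Real.exp_le_exp.2 (h3.trans h2)
    _ = 1 + u := Real.exp_log hpos

variable [Fintype W]

/-- The potential controlling the extensions of `V`. -/
noncomputable def psiA (lam : ℝ) (V : Finset W) (θ : Sym2 W → ℝ) : ℝ :=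
  ∏ x ∈ univ \ V, ((1 - lam) + lam * ∏ e ∈ V.image (fun v => s(x, v)), θ e)

/-- The potential controlling the density between `A` and `C`. -/
noncomputable def psiB (lam : ℝ) (A C : Finset W) (θ : Sym2 W → ℝ) : ℝ :=
  ∏ p ∈ A ×ˢ C, ((1 - lam) + lam * ∏ e ∈ ({s(p.1, p.2)} : Finset (Sym2 W)), θ e)

theorem isPot_psiA {lam : ℝ} (h0 : 0 ≤ lam) (h1 : lam ≤ 1) (V : Finset W) :
    IsPot (psiA lam V) := by
  apply isPot_blocks (univ \ V) (fun x => V.image (fun v => s(x, v))) h0 h1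
  intro x hx y hy hxy
  rw [Finset.disjoint_left]
  intro e he he'
  rw [mem_image] at he he'
  obtain ⟨v, hv, rfl⟩ := he
  obtain ⟨w, hw, hvw⟩ := he'
  rw [mem_sdiff] at hx hy
  simp only [Sym2.eq_iff] at hvw
  rcases hvw with ⟨h2, _⟩ | ⟨h2, _⟩
  · exact hxy h2.symm
  · rw [h2] at hy
    exact hy.2 hv

omit [Fintype W] in
theorem isPot_psiB {lam : ℝ} (h0 : 0 ≤ lam) (h1 : lam ≤ 1) (A C : Finset W)
    (hAC : Disjoint A C) : IsPot (psiB lam A C) := by
  apply isPot_blocks (A ×ˢ C) (fun p => ({s(p.1, p.2)} : Finset (Sym2 W))) h0 h1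
  rintro ⟨x, y⟩ hxy ⟨x', y'⟩ hxy' hne
  rw [mem_product] at hxy hxy'
  rw [disjoint_singleton]
  intro heq
  simp only [Sym2.eq_iff] at heq
  rcases heq with ⟨h2, h3⟩ | ⟨h2, h3⟩
  · exact hne (by rw [h2, h3])
  · simp only at hxy hxy'
    rw [h2] at hxy
    exact Finset.disjoint_left.1 hAC hxy.1 hxy'.2

omit [Fintype W] in
theorem prod_image_eq_ext (θ : Sym2 W → ℝ) (V : Finset W) (x : W) :
    ∏ e ∈ V.image (fun v => s(x, v)), θ e = ext θ V x := by
  unfold ext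
  rw [prod_image]
  intro a _ b _ hab
  simp only [Sym2.eq_iff] at hab
  rcases hab with ⟨_, h⟩ | ⟨h1, h2⟩
  · exact h
  · rw [h2, ← h1]

theorem psiA_one (lam : ℝ) (V : Finset W) : psiA lam V (fun _ => 1) = 1 := by
  unfold psiA
  simp

omit [DecidableEq W] [Fintype W] in
theorem psiB_one (lam : ℝ) (A C : Finset W) : psiB lam A C (fun _ => 1) = 1 := by
  unfold psiB
  simp

theorem psiA_lower {θ : Sym2 W → ℝ} (h : Vals θ) (κ : ℕ) (hκ : 1 ≤ κ) (V X : Finset W)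
    (hX : ∀ x ∈ X, x ∉ V ∧ ext θ V x ≤ 2 ^ κ) :
    Real.exp (-2 * ((2 : ℝ) ^ κ)⁻¹ * Fintype.card W + ((2 : ℝ) ^ κ)⁻¹ / 2 * ∑ x ∈ X, ext θ V x) ≤
      psiA ((2 : ℝ) ^ κ)⁻¹ V θ := by
  classical
  set lam : ℝ := ((2 : ℝ) ^ κ)⁻¹ with hlam
  have hlam0 : 0 < lam := by positivity
  have hlam1 : lam ≤ 1 / 2 := by
    rw [hlam, one_div]
    apply inv_anti₀ (by norm_num)
    calc (2 : ℝ) = 2 ^ 1 := by norm_num
      _ ≤ 2 ^ κ := pow_le_pow_right₀ one_le_two hκ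
  have hXsub : X ⊆ univ \ V := fun x hx => mem_sdiff.2 ⟨mem_univ _, (hX x hx).1⟩
  have hle : ∏ x ∈ univ \ V, Real.exp (-2 * lam + if x ∈ X then lam / 2 * ext θ V x else 0) ≤
      psiA lam V θ := by
    unfold psiA
    apply prod_le_prod
    · intro x _
      exact (Real.exp_pos _).le
    · intro x _
      rw [prod_image_eq_ext, Real.exp_add]
      have h1 := exp_neg_two_mul_le hlam1 hlam0.le
      have h2 := ext_nonneg h V x
      split_ifs with hx
      · have h3 : lam * ext θ V x ≤ 1 := by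
          calc lam * ext θ V x ≤ lam * 2 ^ κ :=
                mul_le_mul_of_nonneg_left (hX x hx).2 hlam0.le
            _ = 1 := by rw [hlam]; exact inv_mul_cancel₀ (by positivity)
        have h4 := exp_half_le (z := lam * ext θ V x) (by positivity) h3
        have h5 : lam / 2 * ext θ V x = (lam * ext θ V x) / 2 := by ring
        rw [h5]
        calc Real.exp (-2 * lam) * Real.exp (lam * ext θ V x / 2)
            ≤ (1 - lam) * (1 + lam * ext θ V x) :=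
              mul_le_mul h1 h4 (Real.exp_pos _).le (by linarith)
          _ ≤ (1 - lam) + lam * ext θ V x := by
              nlinarith [mul_nonneg hlam0.le (mul_nonneg hlam0.le h2)]
      · rw [Real.exp_zero, mul_one]
        have : 0 ≤ lam * ext θ V x := by positivity
        linarith
  refine le_trans ?_ hle
  rw [← Real.exp_sum]
  apply Real.exp_le_exp.2
  rw [sum_add_distrib, sum_const, nsmul_eq_mul, ← sum_filter, ← mul_sum]
  have h1 : (univ \ V).filter (fun x => x ∈ X) = X := by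
    ext x
    rw [mem_filter]
    exact ⟨fun h' => h'.2, fun h' => ⟨hXsub h', h'⟩⟩
  rw [h1]
  have h2 : ((univ \ V).card : ℝ) ≤ Fintype.card W := by
    exact_mod_cast card_le_univ _
  nlinarith

omit [Fintype W] in
theorem psiB_lower {θ : Sym2 W → ℝ} (h : Vals θ) {lam : ℝ} (h0 : 0 ≤ lam) (h1 : lam ≤ 1 / 2)
    (A C : Finset W) :
    Real.exp (lam * (∑ x ∈ A, ∑ c ∈ C, θ s(x, c) - A.card * C.card) -
      2 * lam ^ 2 * (A.card * C.card)) ≤ psiB lam A C θ := by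
  have hle : ∏ p ∈ A ×ˢ C, Real.exp (lam * (θ s(p.1, p.2) - 1) - 2 * lam ^ 2) ≤ psiB lam A C θ := by
    unfold psiB
    apply prod_le_prod
    · intro x _
      exact (Real.exp_pos _).le
    · intro p _
      rw [prod_singleton]
      have h2 : (θ s(p.1, p.2) - 1) ^ 2 ≤ 1 := by
        rcases h s(p.1, p.2) with h3 | h3 | h3 <;> rw [h3] <;> norm_num
      have h3 : -(1 / 2) ≤ lam * (θ s(p.1, p.2) - 1) := by
        have := h.nonneg s(p.1, p.2)
        nlinarith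
      have h4 := exp_sub_sq_le h3
      calc Real.exp (lam * (θ s(p.1, p.2) - 1) - 2 * lam ^ 2)
          ≤ Real.exp (lam * (θ s(p.1, p.2) - 1) - 2 * (lam * (θ s(p.1, p.2) - 1)) ^ 2) := by
            apply Real.exp_le_exp.2
            have : (lam * (θ s(p.1, p.2) - 1)) ^ 2 ≤ lam ^ 2 := by
              rw [mul_pow]
              nlinarith [sq_nonneg lam]
            linarith
        _ ≤ 1 + lam * (θ s(p.1, p.2) - 1) := h4
        _ = (1 - lam) + lam * θ s(p.1, p.2) := by ring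
  refine le_trans ?_ hle
  rw [← Real.exp_sum]
  apply Real.exp_le_exp.2
  rw [sum_sub_distrib, ← mul_sum, sum_sub_distrib, sum_product, sum_const, sum_const, nsmul_eq_mul,
    nsmul_eq_mul, card_product]
  push_cast
  apply le_of_eq
  ring

/-- The static potential. -/
noncomputable def staticPot (q κ n₀ : ℕ) (ε a₁ a₂ : ℝ) (θ : Sym2 W → ℝ) : ℝ :=
  (32 * a₁)⁻¹ * ∑ V ∈ (univ : Finset (Finset W)).filter (fun V => V.card ≤ q),
      psiA ((2 : ℝ) ^ κ)⁻¹ V θ +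
  (32 * a₂)⁻¹ * ∑ p ∈ ((powersetCard n₀ (univ : Finset W)) ×ˢ
      (powersetCard n₀ (univ : Finset W))).filter (fun p => Disjoint p.1 p.2),
      psiB (ε / 8) p.1 p.2 θ

theorem isPot_static {q κ n₀ : ℕ} {ε a₁ a₂ : ℝ} (hε : 0 ≤ ε) (hε1 : ε ≤ 1) (ha₁ : 0 < a₁)
    (ha₂ : 0 < a₂) : IsPot (staticPot (W := W) q κ n₀ ε a₁ a₂) := by
  apply IsPot.add
  · apply IsPot.const_mul _ (by positivity)
    apply isPot_sum
    intro V _
    apply isPot_psiA (by positivity)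
    apply inv_le_one_of_one_le₀
    exact one_le_pow₀ one_le_two
  · apply IsPot.const_mul _ (by positivity)
    apply isPot_sum
    intro p hp
    rw [mem_filter] at hp
    exact isPot_psiB (by linarith) (by linarith) _ _ hp.2

theorem static_one {q κ n₀ : ℕ} {ε a₁ a₂ : ℝ} (ha₁ : 0 < a₁) (ha₂ : 0 < a₂)
    (h₁ : (((univ : Finset (Finset W)).filter (fun V => V.card ≤ q)).card : ℝ) ≤ a₁)
    (h₂ : (((powersetCard n₀ (univ : Finset W)) ×ˢ
      (powersetCard n₀ (univ : Finset W))).card : ℝ) ≤ a₂) :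
    staticPot (W := W) q κ n₀ ε a₁ a₂ (fun _ => 1) ≤ 1 / 16 := by
  unfold staticPot
  simp only [psiA_one, psiB_one, sum_const, nsmul_eq_mul, mul_one]
  have h3 : ((((powersetCard n₀ (univ : Finset W)) ×ˢ
      (powersetCard n₀ (univ : Finset W))).filter (fun p => Disjoint p.1 p.2)).card : ℝ) ≤ a₂ := by
    refine le_trans ?_ h₂
    exact_mod_cast card_filter_le _ _
  have h4 : (32 * a₁)⁻¹ * (((univ : Finset (Finset W)).filter (fun V => V.card ≤ q)).card : ℝ) ≤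
      1 / 32 := by
    calc (32 * a₁)⁻¹ * _ ≤ (32 * a₁)⁻¹ * a₁ := mul_le_mul_of_nonneg_left h₁ (by positivity)
      _ = 1 / 32 := by field_simp
  have h5 : (32 * a₂)⁻¹ * ((((powersetCard n₀ (univ : Finset W)) ×ˢ
      (powersetCard n₀ (univ : Finset W))).filter (fun p => Disjoint p.1 p.2)).card : ℝ) ≤
      1 / 32 := by
    calc (32 * a₂)⁻¹ * _ ≤ (32 * a₂)⁻¹ * a₂ := mul_le_mul_of_nonneg_left h3 (by positivity)
      _ = 1 / 32 := by field_simp
  linarith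

theorem psiA_nonneg {θ : Sym2 W → ℝ} (h : Vals θ) (κ : ℕ) (V : Finset W) :
    0 ≤ psiA ((2 : ℝ) ^ κ)⁻¹ V θ :=
  (isPot_psiA (by positivity) (inv_le_one_of_one_le₀ (one_le_pow₀ one_le_two)) V).nonneg θ
    h.nonneg

theorem psiB_nonneg {θ : Sym2 W → ℝ} (h : Vals θ) {ε : ℝ} (hε : 0 ≤ ε) (hε1 : ε ≤ 1)
    (A C : Finset W) : 0 ≤ psiB (ε / 8) A C θ := by
  unfold psiB
  apply prod_nonneg
  intro p _
  rw [prod_singleton]
  have := h.nonneg s(p.1, p.2)
  have h2 : 0 ≤ 1 - ε / 8 := by linarith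
  positivity

theorem propA_of_static {θ : Sym2 W → ℝ} (h : Vals θ) {q κ n₀ : ℕ} {ε a₁ a₂ L : ℝ}
    (hε : 0 ≤ ε) (hε1 : ε ≤ 1) (hκ : 1 ≤ κ) (ha₁ : 0 < a₁) (ha₂ : 0 < a₂)
    (hP : staticPot q κ n₀ ε a₁ a₂ θ ≤ 1 / 2)
    (hL : 4 * Fintype.card W + 2 ^ (κ + 1) * Real.log (16 * a₁) ≤ L) : PropA θ q κ L := by
  intro V X hV hX
  have h1 : (32 * a₁)⁻¹ * psiA ((2 : ℝ) ^ κ)⁻¹ V θ ≤ 1 / 2 := by
    refine le_trans ?_ hP
    unfold staticPot
    have h2 : psiA ((2 : ℝ) ^ κ)⁻¹ V θ ≤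
        ∑ V ∈ (univ : Finset (Finset W)).filter (fun V => V.card ≤ q),
          psiA ((2 : ℝ) ^ κ)⁻¹ V θ :=
      single_le_sum (f := fun V => psiA ((2 : ℝ) ^ κ)⁻¹ V θ) (fun V _ => psiA_nonneg h κ V)
        (by simp [hV])
    have h3 := mul_le_mul_of_nonneg_left h2 (show 0 ≤ (32 * a₁)⁻¹ by positivity)
    have h4 : 0 ≤ (32 * a₂)⁻¹ * ∑ p ∈ ((powersetCard n₀ (univ : Finset W)) ×ˢ
      (powersetCard n₀ (univ : Finset W))).filter (fun p => Disjoint p.1 p.2),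
        psiB (ε / 8) p.1 p.2 θ :=
      mul_nonneg (by positivity) (sum_nonneg (fun p _ => psiB_nonneg h hε hε1 _ _))
    linarith
  have h2 : psiA ((2 : ℝ) ^ κ)⁻¹ V θ ≤ 16 * a₁ := by
    have h3 : (0 : ℝ) < 32 * a₁ := by positivity
    have h4 := mul_le_mul_of_nonneg_left h1 h3.le
    rw [← mul_assoc, mul_inv_cancel₀ h3.ne', one_mul] at h4
    linarith
  have h3 := (psiA_lower h κ hκ V X hX).trans h2
  have h4 := Real.log_le_log (Real.exp_pos _) h3
  rw [Real.log_exp] at h4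
  refine le_trans ?_ hL
  have hp : (0 : ℝ) < 2 ^ κ := by positivity
  have h5 := mul_le_mul_of_nonneg_left h4 (show (0 : ℝ) ≤ 2 * 2 ^ κ by positivity)
  have h6 : 2 * 2 ^ κ * (-2 * ((2 : ℝ) ^ κ)⁻¹ * Fintype.card W +
      ((2 : ℝ) ^ κ)⁻¹ / 2 * ∑ x ∈ X, ext θ V x) = -4 * Fintype.card W + ∑ x ∈ X, ext θ V x := by
    field_simp
    ring
  rw [h6] at h5
  rw [pow_succ]
  linarith

theorem propB_of_static {θ : Sym2 W → ℝ} (h : Vals θ) {q κ n₀ : ℕ} {ε a₁ a₂ : ℝ}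
    (hε : 0 ≤ ε) (hε1 : ε ≤ 1) (ha₁ : 0 < a₁) (ha₂ : 0 < a₂)
    (hP : staticPot q κ n₀ ε a₁ a₂ θ ≤ 1 / 2)
    (hn : Real.log (16 * a₂) < ε ^ 2 * n₀ ^ 2 / 32) : PropB θ n₀ ε := by
  classical
  intro C X hC hX
  by_contra hcon
  push Not at hcon
  obtain ⟨A, hAX, hA⟩ := exists_subset_card_eq hcon
  have hdisj : Disjoint A C := by
    rw [Finset.disjoint_left]
    intro x hx
    exact (hX x (hAX hx)).1
  have h1 : (32 * a₂)⁻¹ * psiB (ε / 8) A C θ ≤ 1 / 2 := by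
    refine le_trans ?_ hP
    unfold staticPot
    have h2 : psiB (ε / 8) A C θ ≤ ∑ p ∈ ((powersetCard n₀ (univ : Finset W)) ×ˢ
      (powersetCard n₀ (univ : Finset W))).filter (fun p => Disjoint p.1 p.2),
        psiB (ε / 8) p.1 p.2 θ :=
      single_le_sum (f := fun p : Finset W × Finset W => psiB (ε / 8) p.1 p.2 θ)
        (fun p _ => psiB_nonneg h hε hε1 _ _) (a := (A, C))
        (by simp [hA, hC, hdisj])
    have h3 := mul_le_mul_of_nonneg_left h2 (show 0 ≤ (32 * a₂)⁻¹ by positivity)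
    have h4 : 0 ≤ (32 * a₁)⁻¹ * ∑ V ∈ (univ : Finset (Finset W)).filter (fun V => V.card ≤ q),
          psiA ((2 : ℝ) ^ κ)⁻¹ V θ :=
      mul_nonneg (by positivity) (sum_nonneg (fun p _ => psiA_nonneg h _ _))
    linarith
  have h2 : psiB (ε / 8) A C θ ≤ 16 * a₂ := by
    have h3 : (0 : ℝ) < 32 * a₂ := by positivity
    have h4 := mul_le_mul_of_nonneg_left h1 h3.le
    rw [← mul_assoc, mul_inv_cancel₀ h3.ne', one_mul] at h4
    linarith
  have h3 := (psiB_lower h (by linarith : 0 ≤ ε / 8) (by linarith) A C).trans h2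
  have h4 := Real.log_le_log (Real.exp_pos _) h3
  rw [Real.log_exp, hA, hC] at h4
  have h5 : (n₀ : ℝ) * ((1 + ε / 2) * n₀) ≤ ∑ x ∈ A, ∑ c ∈ C, θ s(x, c) := by
    calc (n₀ : ℝ) * ((1 + ε / 2) * n₀) = ∑ x ∈ A, (1 + ε / 2) * (n₀ : ℝ) := by
          rw [sum_const, nsmul_eq_mul, hA]
      _ ≤ _ := sum_le_sum (fun x hx => (hX x (hAX hx)).2)
  have h6 := mul_le_mul_of_nonneg_left h5 (show 0 ≤ ε / 8 by linarith)
  nlinarith

end Pool.Agent.CliqueGame
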