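import Pool.Agent.helper39.CliqueGame.Loop

/-!
# Weights of vertex sets and extensions
-/

set_option autoImplicit false

open Finset Function

namespace Pool.Agent.CliqueGame

variable {W : Type*} [DecidableEq W]

/-- The weight of a vertex `x` relative to a set `C`. -/
noncomputable def ext (θ : Sym2 W → ℝ) (C : Finset W) (x : W) : ℝ := ∏ c ∈ C, θ s(x, c)

/-- All values are `0`, `1` or `2`. -/
def Vals (θ : Sym2 W → ℝ) : Prop := ∀ e, θ e = 0 ∨ θ e = 1 ∨ θ e = 2

theorem vals_stVal (M B : Finset (Sym2 W)) : Vals (stVal M B) := by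
  intro e
  unfold stVal
  split_ifs <;> simp

omit [DecidableEq W] in
theorem Vals.nonneg {θ : Sym2 W → ℝ} (h : Vals θ) (e : Sym2 W) : 0 ≤ θ e := by
  rcases h e with h | h | h <;> rw [h] <;> norm_num

omit [DecidableEq W] in
theorem Vals.le_two {θ : Sym2 W → ℝ} (h : Vals θ) (e : Sym2 W) : θ e ≤ 2 := by
  rcases h e with h | h | h <;> rw [h] <;> norm_num

theorem pairsIn_insert {C : Finset W} {x : W} (hx : x ∉ C) :
    pairsIn (insert x C) = pairsIn C ∪ C.image (fun c => s(x, c)) := by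
  ext e
  induction e using Sym2.ind with
  | _ a b =>
    simp only [mem_pairsIn, mem_union, mem_image, mem_insert, Sym2.eq_iff]
    constructor
    · rintro ⟨h1, h2, h3⟩
      rcases h1 with rfl | h1
      · rcases h2 with rfl | h2
        · exact absurd rfl h3
        · exact Or.inr ⟨b, h2, Or.inl ⟨rfl, rfl⟩⟩
      · rcases h2 with rfl | h2
        · exact Or.inr ⟨a, h1, Or.inr ⟨rfl, rfl⟩⟩
        · exact Or.inl ⟨h1, h2, h3⟩
    · rintro (⟨h1, h2, h3⟩ | ⟨c, hc, ⟨rfl, rfl⟩ | ⟨rfl, rfl⟩⟩)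
      · exact ⟨Or.inr h1, Or.inr h2, h3⟩
      · exact ⟨Or.inl rfl, Or.inr hc, by rintro rfl; exact hx hc⟩
      · exact ⟨Or.inr hc, Or.inl rfl, by rintro rfl; exact hx hc⟩

theorem wt_insert (θ : Sym2 W → ℝ) {C : Finset W} {x : W} (hx : x ∉ C) :
    wt θ (insert x C) = wt θ C * ext θ C x := by
  unfold wt ext
  rw [pairsIn_insert hx, prod_union, prod_image]
  · intro a _ b _ hab
    simp only [Sym2.eq_iff] at hab
    rcases hab with ⟨_, h⟩ | ⟨h1, h2⟩
    · exact h
    · rw [h2, ← h1]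
  · rw [Finset.disjoint_left]
    intro e he he'
    simp only [mem_image] at he'
    obtain ⟨c, _, rfl⟩ := he'
    exact hx (mem_pairsIn.1 he).1

theorem ext_insert (θ : Sym2 W → ℝ) {C : Finset W} {c : W} (hc : c ∉ C) (x : W) :
    ext θ (insert c C) x = θ s(x, c) * ext θ C x := by
  unfold ext
  rw [prod_insert hc]

theorem wt_nonneg {θ : Sym2 W → ℝ} (h : Vals θ) (S : Finset W) : 0 ≤ wt θ S :=
  prod_nonneg (fun e _ => h.nonneg e)

omit [DecidableEq W] in
theorem ext_nonneg {θ : Sym2 W → ℝ} (h : Vals θ) (C : Finset W) (x : W) : 0 ≤ ext θ C x :=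
  prod_nonneg (fun c _ => h.nonneg _)

/-- The number of vertices of `C` joined to `x` by Maker. -/
noncomputable def mdeg (θ : Sym2 W → ℝ) (C : Finset W) (x : W) : ℕ := by
  classical
  exact (C.filter (fun y => θ s(x, y) = 2)).card

omit [DecidableEq W] in
theorem mdeg_mono (θ : Sym2 W → ℝ) {C D : Finset W} (h : C ⊆ D) (x : W) :
    mdeg θ C x ≤ mdeg θ D x := by
  classical
  unfold mdeg
  exact card_le_card (filter_subset_filter _ h)

theorem ext_le_mdeg {θ : Sym2 W → ℝ} (h : Vals θ) (C : Finset W) (x : W) :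
    ext θ C x ≤ 2 ^ (mdeg θ C x) := by
  classical
  induction C using Finset.induction_on with
  | empty => simp [ext, mdeg]
  | insert c C hc ih =>
    rw [ext_insert θ hc]
    have h0 := ext_nonneg h C x
    rcases h s(x, c) with h1 | h1 | h1
    · rw [h1, zero_mul]; positivity
    · rw [h1, one_mul]
      exact ih.trans (pow_le_pow_right₀ one_le_two (mdeg_mono θ (subset_insert _ _) x))
    · have h2 : mdeg θ (insert c C) x = mdeg θ C x + 1 := by
        unfold mdeg
        rw [filter_insert, if_pos h1, card_insert_of_notMem]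
        intro hmem
        exact hc (mem_filter.1 hmem).1
      rw [h1, h2, pow_succ]
      linarith

omit [DecidableEq W] in
theorem mdeg_le_card (θ : Sym2 W → ℝ) (C : Finset W) (x : W) : mdeg θ C x ≤ C.card := by
  classical
  unfold mdeg
  exact card_filter_le _ _

theorem ext_le {θ : Sym2 W → ℝ} (h : Vals θ) (C : Finset W) (x : W) :
    ext θ C x ≤ 2 ^ C.card :=
  (ext_le_mdeg h C x).trans (pow_le_pow_right₀ one_le_two (mdeg_le_card θ C x))

/-- The values of `ext` are `0` or powers of two. -/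
theorem ext_eq {θ : Sym2 W → ℝ} (h : Vals θ) (C : Finset W) (x : W) :
    ext θ C x = 0 ∨ ∃ i ≤ C.card, ext θ C x = 2 ^ i := by
  classical
  induction C using Finset.induction_on with
  | empty => exact Or.inr ⟨0, le_rfl, by simp [ext]⟩
  | insert c C hc ih =>
    rw [ext_insert θ hc, card_insert_of_notMem hc]
    rcases ih with ih | ⟨i, hi, ih⟩
    · left; rw [ih, mul_zero]
    · rcases h s(x, c) with h1 | h1 | h1
      · left; rw [h1, zero_mul]
      · right; exact ⟨i, by omega, by rw [h1, one_mul, ih]⟩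
      · right; exact ⟨i + 1, by omega, by rw [h1, ih, pow_succ]; ring⟩

/-- The first pseudo-randomness property. -/
def PropA (θ : Sym2 W → ℝ) (q κ : ℕ) (L : ℝ) : Prop :=
  ∀ (V X : Finset W), V.card ≤ q → (∀ x ∈ X, x ∉ V ∧ ext θ V x ≤ 2 ^ κ) →
    ∑ x ∈ X, ext θ V x ≤ L

/-- The vertices outside the host: each has few Maker neighbours. -/
theorem sum_wt_outside {θ : Sym2 W → ℝ} (h : Vals θ) {q κ : ℕ} {L : ℝ} (hL : 0 ≤ L)
    (hA : PropA θ q κ L) : ∀ (n : ℕ) (C : Finset W) (𝒯 : Finset (Finset W)), C.card + n ≤ q →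
      (∀ S ∈ 𝒯, C ⊆ S ∧ S.card = C.card + n ∧ ∀ x ∈ S, x ∉ C → mdeg θ S x ≤ κ) →
      ∑ S ∈ 𝒯, wt θ S ≤ L ^ n * wt θ C := by
  intro n
  induction n with
  | zero =>
    intro C 𝒯 _ h𝒯
    have hsub : 𝒯 ⊆ {C} := by
      intro S hS
      obtain ⟨h1, h2, _⟩ := h𝒯 S hS
      rw [mem_singleton]
      exact (eq_of_subset_of_card_le h1 (by omega)).symm
    calc ∑ S ∈ 𝒯, wt θ S ≤ ∑ S ∈ {C}, wt θ S :=
          sum_le_sum_of_subset_of_nonneg hsub (fun S _ _ => wt_nonneg h S)
      _ = L ^ 0 * wt θ C := by simp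
  | succ n ih =>
    intro C 𝒯 hCn h𝒯
    -- the vertices that occur
    set X : Finset W := (𝒯.biUnion id) \ C with hX
    have h1 : ∑ S ∈ 𝒯, wt θ S ≤ ∑ x ∈ X, ∑ S ∈ 𝒯.filter (fun S => x ∈ S), wt θ S := by
      have h2 : ∀ S ∈ 𝒯, wt θ S ≤ ∑ x ∈ X, if x ∈ S then wt θ S else 0 := by
        intro S hS
        obtain ⟨hCS, hcard, _⟩ := h𝒯 S hS
        obtain ⟨x, hxS, hxC⟩ : ∃ x ∈ S, x ∉ C := by
          by_contra hcon
          push Not at hcon
          have := card_le_card (show S ⊆ C from hcon)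
          omega
        have hxX : x ∈ X := by
          rw [hX, mem_sdiff]
          exact ⟨mem_biUnion.2 ⟨S, hS, hxS⟩, hxC⟩
        have := single_le_sum (f := fun x => if x ∈ S then wt θ S else 0) (s := X)
          (fun y _ => by
            split_ifs
            · exact wt_nonneg h S
            · exact le_rfl) hxX
        simpa [hxS] using this
      calc ∑ S ∈ 𝒯, wt θ S ≤ ∑ S ∈ 𝒯, ∑ x ∈ X, (if x ∈ S then wt θ S else 0) :=
            sum_le_sum h2
        _ = ∑ x ∈ X, ∑ S ∈ 𝒯, (if x ∈ S then wt θ S else 0) := sum_comm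
        _ = ∑ x ∈ X, ∑ S ∈ 𝒯.filter (fun S => x ∈ S), wt θ S := by
            apply sum_congr rfl
            intro x _
            rw [sum_filter]
    have h2 : ∀ x ∈ X, ∑ S ∈ 𝒯.filter (fun S => x ∈ S), wt θ S ≤
        L ^ n * (wt θ C * ext θ C x) := by
      intro x hx
      have hxC : x ∉ C := (mem_sdiff.1 hx).2
      rw [← wt_insert θ hxC]
      apply ih
      · rw [card_insert_of_notMem hxC]; omega
      · intro S hS
        obtain ⟨hS, hxS⟩ := mem_filter.1 hS
        obtain ⟨hCS, hcard, hdeg⟩ := h𝒯 S hS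
        refine ⟨insert_subset hxS hCS, by rw [card_insert_of_notMem hxC]; omega, ?_⟩
        intro y hy hyC
        exact hdeg y hy (fun h' => hyC (mem_insert_of_mem h'))
    have h3 : ∑ x ∈ X, ext θ C x ≤ L := by
      apply hA C X (by omega)
      intro x hx
      obtain ⟨hx1, hxC⟩ := mem_sdiff.1 hx
      refine ⟨hxC, ?_⟩
      obtain ⟨S, hS, hxS⟩ := mem_biUnion.1 hx1
      obtain ⟨hCS, hcard, hdeg⟩ := h𝒯 S hS
      exact (ext_le_mdeg h C x).trans (pow_le_pow_right₀ one_le_two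
        ((mdeg_mono θ hCS x).trans (hdeg x hxS hxC)))
    calc ∑ S ∈ 𝒯, wt θ S ≤ ∑ x ∈ X, L ^ n * (wt θ C * ext θ C x) := h1.trans (sum_le_sum h2)
      _ = L ^ n * wt θ C * ∑ x ∈ X, ext θ C x := by
          rw [mul_sum]
          apply sum_congr rfl
          intro x _
          ring
      _ ≤ L ^ n * wt θ C * L :=
          mul_le_mul_of_nonneg_left h3 (mul_nonneg (pow_nonneg hL n) (wt_nonneg h C))
      _ = L ^ (n + 1) * wt θ C := by ring

end Pool.Agent.CliqueGame
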